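import Mathlib

/-!
# The linear algebra of the two families

`z k` stands for the binary monomial `s^{d^2-2-k} t^k`.
-/

namespace Pool.Agent.W_MP_fe9afc_ag

open Finset

variable {K V : Type*} [Field K] [AddCommGroup V] [Module K V]

/-- Family I (`p ∤ d`), `d = m + 2`. -/
theorem combI (W : Submodule K V) (z : ℕ → V) (m : ℕ) (c c' : K) (hc : c ≠ 0) (hc' : c' ≠ 0)
    (a b : ℕ → K)
    (H1 : ∀ i l, i ≤ m → l ≤ m → z ((i + 1) * (m + 1) + l) ∈ W)
    (H2 : ∀ l, l ≤ m → c • z l + ∑ i ∈ range m, a i • z ((m + 2) * (i + 1) + l) ∈ W)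
    (H3 : ∀ l, l ≤ m →
      c' • z ((m + 2) * (m + 1) + l) + ∑ i ∈ range m, b i • z ((m + 2) * (i + 1) + l) ∈ W)
    (k : ℕ) (hk : k ≤ m ^ 2 + 4 * m + 2) : z k ∈ W := by
  have mid : ∀ k, m + 1 ≤ k → k < (m + 2) * (m + 1) → z k ∈ W := by
    intro k h1 h2
    have h3 := Nat.div_add_mod k (m + 1)
    have h4 : k % (m + 1) < m + 1 := Nat.mod_lt _ (by omega)
    have h5 : 1 ≤ k / (m + 1) := (Nat.one_le_div_iff (by omega)).2 h1
    have h6 : k / (m + 1) < m + 2 := Nat.div_lt_of_lt_mul (by rw [mul_comm]; exact h2)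
    have := H1 (k / (m + 1) - 1) (k % (m + 1)) (by omega) (by omega)
    rwa [show (k / (m + 1) - 1 + 1) * (m + 1) + k % (m + 1) = k by
      rw [Nat.sub_add_cancel h5, mul_comm]; exact h3] at this
  have sum_mem : ∀ (a : ℕ → K) l, l ≤ m → ∑ i ∈ range m, a i • z ((m + 2) * (i + 1) + l) ∈ W := by
    intro a l hl
    refine W.sum_mem fun i hi => W.smul_mem _ (mid _ ?_ ?_)
    · nlinarith
    · have := mem_range.1 hi
      nlinarith
  rcases Nat.lt_or_ge k (m + 1) with h1 | h1
  · have h2 := H2 k (by omega)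
    have h3 := (W.add_mem_iff_left (sum_mem a k (by omega))).1 h2
    exact (W.smul_mem_iff hc).1 h3
  · rcases Nat.lt_or_ge k ((m + 2) * (m + 1)) with h2 | h2
    · exact mid k h1 h2
    · obtain ⟨l, rfl⟩ := Nat.exists_eq_add_of_le h2
      have hl : l ≤ m := by nlinarith
      have h3 := (W.add_mem_iff_left (sum_mem b l hl)).1 (H3 l hl)
      exact (W.smul_mem_iff hc').1 h3

/-- Family II (`p ∣ d`), `d = m + 3`. -/
theorem combII (W : Submodule K V) (z : ℕ → V) (m : ℕ) (hd : ((m + 3 : ℕ) : K) = 0)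
    (a b c : ℕ → K)
    (H1 : ∀ l, l ≤ m + 1 → z ((m + 1) * (m + 2) + l) ∈ W)
    (H2 : ∀ j l, j < m → l ≤ m + 1 →
      z ((j + 1) * (m + 2) + l) - z ((j + 2) * (m + 2) + 1 + l) ∈ W)
    (H3 : ∀ l, l ≤ m + 1 →
      z (m + 3 + l) + ∑ i ∈ range (m + 1), z ((m + 3) * (i + 1) + l) ∈ W)
    (H4 : z (m + 2) + ∑ i ∈ range (m + 1), a i • z ((m + 3) * (i + 1))
      + z ((m + 2) ^ 2 + (m + 1)) ∈ W)
    (H5 : ∀ l, l ≤ m + 1 →
      z (m + 3 + l) + ∑ i ∈ range (m + 1), b i • z ((m + 3) * (i + 1) + 1 + l)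
        + z ((m + 3) * (m + 2) + l) ∈ W)
    (H6 : ∀ l, l ≤ m + 1 →
      z l + z (l + 1) + ∑ i ∈ range m, c i • z ((m + 3) * (i + 1) + 1 + l)
        + z ((m + 3) * (m + 1) + l) ∈ W)
    (k : ℕ) (hk : k ≤ m ^ 2 + 6 * m + 7) : z k ∈ W := by
  -- shift by `d`
  have shift : ∀ k, m + 2 ≤ k → k < (m + 1) * (m + 2) → z k - z (k + (m + 3)) ∈ W := by
    intro k h1 h2
    have h3 := Nat.div_add_mod k (m + 2)
    have h4 : k % (m + 2) < m + 2 := Nat.mod_lt _ (by omega)
    have h5 : 1 ≤ k / (m + 2) := (Nat.one_le_div_iff (by omega)).2 h1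
    have h6 : k / (m + 2) < m + 1 := Nat.div_lt_of_lt_mul (by rw [mul_comm]; exact h2)
    obtain ⟨j, hj⟩ : ∃ j, k / (m + 2) = j + 1 := ⟨k / (m + 2) - 1, by omega⟩
    have := H2 j (k % (m + 2)) (by omega) (by omega)
    rw [hj] at h3
    generalize k % (m + 2) = r at *
    subst h3
    rwa [show (j + 1) * (m + 2) + r = (m + 2) * (j + 1) + r by ring,
      show (j + 2) * (m + 2) + 1 + r = (m + 2) * (j + 1) + r + (m + 3) by ring] at this
  -- iterate
  have iter : ∀ q k, m + 2 ≤ k → k + q * (m + 3) ≤ (m + 2) ^ 2 →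
      z k - z (k + q * (m + 3)) ∈ W := by
    intro q
    induction q with
    | zero => intro k _ _; simp
    | succ q ih =>
      intro k h1 h2
      have h3 : k + q * (m + 3) < (m + 1) * (m + 2) := by nlinarith
      have h4 := shift (k + q * (m + 3)) (by omega) h3
      have h5 := ih k h1 (by nlinarith)
      have h6 := W.add_mem h5 h4
      rwa [sub_add_sub_cancel, show k + q * (m + 3) + (m + 3) = k + (q + 1) * (m + 3) by ring]
        at h6
  -- residue `1`
  have res1 : ∀ i, i < m + 1 → z ((m + 3) * (i + 1) + 1) - z ((m + 2) ^ 2) ∈ W := by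
    intro i hi
    obtain ⟨q, rfl⟩ : ∃ q, m = i + q := ⟨m - i, by omega⟩
    have := iter q ((i + q + 3) * (i + 1) + 1) (by nlinarith) (by nlinarith)
    rwa [show (i + q + 3) * (i + 1) + 1 + q * (i + q + 3) = (i + q + 2) ^ 2 by ring] at this
  have eps : z ((m + 2) ^ 2) ∈ W := by
    have h1 := H3 1 (by omega)
    have h2 : (z (m + 3 + 1) - z ((m + 2) ^ 2))
        + ∑ i ∈ range (m + 1), (z ((m + 3) * (i + 1) + 1) - z ((m + 2) ^ 2)) ∈ W := by
      refine W.add_mem ?_ (W.sum_mem fun i hi => res1 i (mem_range.1 hi))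
      simpa using res1 0 (by omega)
    have h3 := W.sub_mem h1 h2
    rw [sum_sub_distrib, sum_const, card_range] at h3
    have h4 : z (m + 3 + 1) + ∑ i ∈ range (m + 1), z ((m + 3) * (i + 1) + 1)
        - (z (m + 3 + 1) - z ((m + 2) ^ 2)
          + (∑ i ∈ range (m + 1), z ((m + 3) * (i + 1) + 1) - (m + 1) • z ((m + 2) ^ 2)))
        = - z ((m + 2) ^ 2) := by
      have h5 : ((m + 3 : ℕ) : K) • z ((m + 2) ^ 2) = 0 := by rw [hd, zero_smul]
      rw [Nat.cast_smul_eq_nsmul] at h5
      have h6 : (m + 3) • z ((m + 2) ^ 2) = (m + 1) • z ((m + 2) ^ 2) + z ((m + 2) ^ 2)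
          + z ((m + 2) ^ 2) := by
        rw [show m + 3 = (m + 1) + 1 + 1 by ring, add_smul, add_smul, one_smul]
      rw [h6] at h5
      have h7 : (m + 1) • z ((m + 2) ^ 2) = - z ((m + 2) ^ 2) - z ((m + 2) ^ 2) := by
        rw [← sub_eq_zero, ← h5]; abel
      rw [h7]; abel
    rw [h4] at h3
    exact (W.neg_mem_iff).1 h3
  -- the range up to `(d-1)^2`
  have mid1 : ∀ k, m + 2 ≤ k → k ≤ (m + 2) ^ 2 → z k ∈ W := by
    intro k
    induction hn : (m + 2) ^ 2 - k using Nat.strong_induction_on generalizing k with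
    | _ n ih =>
      intro h1 h2
      rcases Nat.lt_or_ge k ((m + 1) * (m + 2)) with h3 | h3
      · have h4 := shift k h1 h3
        have h5 : k + (m + 3) ≤ (m + 2) ^ 2 := by nlinarith
        have h6 := ih ((m + 2) ^ 2 - (k + (m + 3))) (by omega) (k + (m + 3)) rfl (by omega) h5
        exact (W.sub_mem_iff_left h6).1 h4
      · rcases Nat.lt_or_ge k ((m + 2) ^ 2) with h4 | h4
        · obtain ⟨l, rfl⟩ := Nat.exists_eq_add_of_le h3
          exact H1 l (by nlinarith)
        · have : k = (m + 2) ^ 2 := le_antisymm h2 h4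
          rw [this]
          exact eps
  -- the range up to `d^2-d-2`
  have h2K : ((m : ℕ) : K) = -3 := by
    have : ((m : ℕ) : K) + 3 = 0 := by exact_mod_cast hd
    linear_combination this
  have mid2 : ∀ l, l ≤ m + 1 → z ((m + 3) * (m + 1) + l) ∈ W := by
    intro l hl
    rcases Nat.eq_zero_or_pos l with rfl | hl0
    · exact mid1 _ (by nlinarith) (by nlinarith)
    · have h1 := H3 l hl
      rw [sum_range_succ] at h1
      have h2 : ∑ i ∈ range m, z ((m + 3) * (i + 1) + l) ∈ W := by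
        refine W.sum_mem fun i hi => mid1 _ (by nlinarith) ?_
        have := mem_range.1 hi
        nlinarith
      rcases Nat.eq_zero_or_pos m with rfl | hm
      · -- `d = 3`
        simp only [range_zero, sum_empty, zero_add] at h1
        have h3 : (2 : K) ≠ 0 := by
          intro h
          have h4 : ((0 : ℕ) : K) = -3 := h2K
          rw [Nat.cast_zero] at h4
          have : (1 : K) = 0 := by linear_combination h4 - h
          exact one_ne_zero this
        have h4 : z (3 + l) + z (3 * 1 + l) = (2 : K) • z (3 + l) := by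
          rw [two_smul, mul_one]
        rw [h4] at h1
        have h5 := (W.smul_mem_iff h3).1 h1
        simpa using h5
      · have h3 : z (m + 3 + l) ∈ W := mid1 _ (by nlinarith) (by nlinarith)
        rw [← add_assoc] at h1
        exact (W.add_mem_iff_right (W.add_mem h3 h2)).1 h1
  have mid : ∀ k, m + 2 ≤ k → k ≤ (m + 3) * (m + 1) + (m + 1) → z k ∈ W := by
    intro k h1 h2
    rcases Nat.lt_or_ge k ((m + 3) * (m + 1)) with h3 | h3
    · exact mid1 k h1 (by nlinarith)
    · obtain ⟨l, rfl⟩ := Nat.exists_eq_add_of_le h3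
      exact mid2 l (by omega)
  -- `d^2-d-1`
  have top0 : z ((m + 2) ^ 2 + (m + 1)) ∈ W := by
    refine (W.add_mem_iff_right (W.add_mem (mid _ le_rfl (by nlinarith))
      (W.sum_mem fun i hi => W.smul_mem _ (mid _ (by nlinarith) ?_)))).1 H4
    have := mem_range.1 hi
    nlinarith
  have midT : ∀ k, m + 2 ≤ k → k ≤ (m + 2) ^ 2 + (m + 1) → z k ∈ W := by
    intro k h1 h2
    rcases Nat.lt_or_ge k ((m + 2) ^ 2 + (m + 1)) with h3 | h3
    · exact mid k h1 (by nlinarith)
    · rw [le_antisymm h2 h3]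
      exact top0
  -- the top block
  have top : ∀ l, l ≤ m + 1 → z ((m + 3) * (m + 2) + l) ∈ W := by
    intro l hl
    refine (W.add_mem_iff_right (W.add_mem (midT _ (by nlinarith) (by nlinarith))
      (W.sum_mem fun i hi => W.smul_mem _ (midT _ (by nlinarith) ?_)))).1 (H5 l hl)
    have := mem_range.1 hi
    nlinarith
  -- the bottom block
  have bot : ∀ r, ∀ l, l + r = m + 2 → z l ∈ W := by
    intro r
    induction r with
    | zero => intro l hl; exact midT _ (by omega) (by nlinarith)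
    | succ r ih =>
      intro l hl
      have h1 := H6 l (by omega)
      have h2 : z (l + 1) ∈ W := ih (l + 1) (by omega)
      have h3 : ∑ i ∈ range m, c i • z ((m + 3) * (i + 1) + 1 + l) ∈ W := by
        refine W.sum_mem fun i hi => W.smul_mem _ (midT _ (by nlinarith) ?_)
        have := mem_range.1 hi
        nlinarith
      have h4 : z ((m + 3) * (m + 1) + l) ∈ W := midT _ (by nlinarith) (by nlinarith)
      exact (W.add_mem_iff_left h2).1 ((W.add_mem_iff_left h3).1 ((W.add_mem_iff_left h4).1 h1))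
  rcases Nat.lt_or_ge k (m + 2) with h1 | h1
  · exact bot (m + 2 - k) k (by omega)
  · rcases Nat.lt_or_ge k ((m + 3) * (m + 2)) with h2 | h2
    · exact midT k h1 (by nlinarith)
    · obtain ⟨l, rfl⟩ := Nat.exists_eq_add_of_le h2
      exact top l (by nlinarith)

end Pool.Agent.W_MP_fe9afc_ag
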