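import Pool.Agent.W_MP_fe9afc_ag.Ext
import Pool.Agent.W_MP_fe9afc_ag.Comb

/-!
# The base case `n = d`: the curve `(s^d, s^{d-1} t, …, t^d)`
-/

namespace Pool.Agent.W_MP_fe9afc_ag

open MvPolynomial Finset

/-- The variable `x_i`, for a natural number `i` (`0` if `i > n`). -/
noncomputable def Y (R : Type*) [CommRing R] (n i : ℕ) : MvPolynomial (Fin (n + 1)) R :=
  if h : i < n + 1 then X ⟨i, h⟩ else 0

lemma pderiv_Y {R : Type*} [CommRing R] {n : ℕ} (j : Fin (n + 1)) (i : ℕ) :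
    pderiv j (Y R n i) = if i = (j : ℕ) then 1 else 0 := by
  unfold Y
  split_ifs with h1 h2 h2
  · have : (⟨i, h1⟩ : Fin (n + 1)) = j := Fin.ext h2
    rw [this, pderiv_X_self]
  · exact pderiv_X_of_ne (fun h => h2 (by rw [← h]))
  · exact absurd (h2 ▸ j.isLt) h1
  · exact map_zero _

lemma map_Y {R S : Type*} [CommRing R] [CommRing S] (φ : R →+* S) (n i : ℕ) :
    map φ (Y R n i) = Y S n i := by
  unfold Y
  split_ifs <;> simp

lemma Y_homogeneous {R : Type*} [CommRing R] (n i : ℕ) : (Y R n i).IsHomogeneous 1 := by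
  unfold Y
  split_ifs
  · exact isHomogeneous_X _ _
  · exact isHomogeneous_zero _ _ _

lemma Y_pow_homogeneous {R : Type*} [CommRing R] (n i k : ℕ) :
    ((Y R n i) ^ k).IsHomogeneous k := by
  simpa using (Y_homogeneous (R := R) n i).pow k

variable {K : Type*} [Field K]

lemma eval_Y {n : ℕ} (x : Fin (n + 1) → K) (i : ℕ) (hi : i < n + 1) :
    eval x (Y K n i) = x ⟨i, hi⟩ := by
  unfold Y
  rw [dif_pos hi, eval_X]

/-- The rational normal curve. -/
noncomputable def crv (K : Type*) [Field K] (d : ℕ) (i : Fin (d + 1)) : MvPolynomial (Fin 2) K :=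
  X 0 ^ (d - (i : ℕ)) * X 1 ^ (i : ℕ)

lemma aeval_Y {d : ℕ} (i : ℕ) (hi : i < d + 1) :
    aeval (crv K d) (Y K d i) = X 0 ^ (d - i) * X 1 ^ i := by
  unfold Y
  rw [dif_pos hi, aeval_X, crv]

/-- `s^A t^B` with `A + B = N`. -/
noncomputable def gm (K : Type*) [Field K] (N B : ℕ) : MvPolynomial (Fin 2) K :=
  X 0 ^ (N - B) * X 1 ^ B

lemma gm_eq {N A B : ℕ} (h : A + B = N) :
    (X 0 ^ A * X 1 ^ B : MvPolynomial (Fin 2) K) = gm K N B := by
  rw [gm, ← h, Nat.add_sub_cancel]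

lemma mul_gm {N M k l : ℕ} (hk : k ≤ N) (hl : l ≤ M) :
    gm K M l * gm K N k = gm K (M + N) (k + l) := by
  unfold gm
  have : M + N - (k + l) = (M - l) + (N - k) := by omega
  rw [this]
  ring

lemma gm_homogeneous {N B : ℕ} (h : B ≤ N) : (gm K N B).IsHomogeneous N := by
  have := (isHomogeneous_X_pow (R := K) (0 : Fin 2) (N - B)).mul
    (isHomogeneous_X_pow (R := K) (1 : Fin 2) B)
  rwa [Nat.sub_add_cancel h] at this

/-- The curve property from the spanning property. -/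
lemma hasCurve_of_span (d : ℕ) (hd : 2 ≤ d) (F : MvPolynomial (Fin (d + 1)) K)
    (hF : aeval (crv K d) F = 0)
    (hW : ∀ k, k ≤ d * d - 2 →
      gm K (d * d - 2) k ∈ WSub d (fun i => aeval (crv K d) (pderiv i F)) 0) :
    HasCurve d F := by
  refine ⟨crv K d, fun i => X 0 ^ (d - (i : ℕ)) * X 1 ^ ((i : ℕ) - 1) * (if i = 0 then 0 else 1),
    ?_, ?_, ?_, ?_, hF, ?_⟩
  · simp [crv]
  · intro j hj
    have hj' : (j : ℕ) ≠ 0 := fun h => hj (Fin.ext h)
    simp only [if_neg hj, mul_one]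
    rw [mul_left_comm, ← pow_succ', Nat.sub_add_cancel (by omega), crv]
  · intro j
    have hj1 := j.isLt
    by_cases hj : j = 0
    · simp only [hj, if_true, mul_zero]
      exact isHomogeneous_zero _ _ _
    · have hj' : (j : ℕ) ≠ 0 := fun h => hj (Fin.ext h)
      simp only [if_neg hj, mul_one]
      have := (isHomogeneous_X_pow (R := K) (0 : Fin 2) (d - (j : ℕ))).mul
        (isHomogeneous_X_pow (R := K) (1 : Fin 2) ((j : ℕ) - 1))
      rwa [show d - (j : ℕ) + ((j : ℕ) - 1) = d - 1 by omega] at this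
  · exact ⟨Fin.last d, by simp [crv]⟩
  · intro k l hkl
    rw [gm_eq hkl]
    exact hW l (by omega)

/-- Multiples of the `G_j` in terms of monomials. -/
lemma mul_G_mem {d : ℕ} (F : MvPolynomial (Fin (d + 1)) K) (j : Fin (d + 1))
    (l : ℕ) (hl : l ≤ d - 2) :
    gm K (d - 2) l * aeval (crv K d) (pderiv j F)
      ∈ WSub d (fun i => aeval (crv K d) (pderiv i F)) 0 :=
  WSub.mul_mem d (fun i => aeval (crv K d) (pderiv i F)) 0 j _ (gm_homogeneous hl)

/-- Family I. -/
theorem hasCurveI (m : ℕ) (F : MvPolynomial (Fin (m + 2 + 1)) K)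
    (hF : aeval (crv K (m + 2)) F = 0) (β a b : ℕ → K)
    (hβ : ∀ i, i ≤ m → β i ≠ 0) (ha : a 0 ≠ 0) (hb : b m ≠ 0)
    (HG1 : ∀ i (hi : i ≤ m), aeval (crv K (m + 2)) (pderiv ⟨i + 1, by omega⟩ F)
      = C (β i) * gm K ((m + 2) * (m + 1)) ((i + 1) * (m + 1)))
    (HG0 : aeval (crv K (m + 2)) (pderiv 0 F)
      = ∑ i ∈ range (m + 1), C (b i) * gm K ((m + 2) * (m + 1)) ((m + 2) * (i + 1)))
    (HGd : aeval (crv K (m + 2)) (pderiv (Fin.last (m + 2)) F)
      = ∑ i ∈ range (m + 1), C (a i) * gm K ((m + 2) * (m + 1)) ((m + 2) * i)) :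
    HasCurve (m + 2) F := by
  refine hasCurve_of_span (m + 2) (by omega) F hF fun k hk => ?_
  have hN : (m + 2) * (m + 2) - 2 = m + (m + 2) * (m + 1) := by
    have : (m + 2) * (m + 2) = m + (m + 2) * (m + 1) + 2 := by ring
    omega
  rw [hN] at hk ⊢
  set W := WSub (m + 2) (fun i => aeval (crv K (m + 2)) (pderiv i F)) 0 with hWdef
  have hmul : ∀ j l, l ≤ m → gm K m l * aeval (crv K (m + 2)) (pderiv j F) ∈ W := fun j l hl =>
    mul_G_mem F j l hl
  refine combI W (fun k => gm K (m + (m + 2) * (m + 1)) k) m (a 0) (b m) ha hb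
    (fun i => a (i + 1)) b ?_ ?_ ?_ k ?_
  · intro i l hi hl
    have h1 := hmul ⟨i + 1, by omega⟩ l hl
    rw [HG1 i hi, mul_left_comm, mul_gm (by nlinarith) hl, ← smul_eq_C_mul] at h1
    exact (W.smul_mem_iff (hβ i hi)).1 h1
  · intro l hl
    have h1 := hmul (Fin.last (m + 2)) l hl
    rw [HGd, sum_range_succ', mul_add, mul_sum] at h1
    convert h1 using 1
    rw [add_comm]
    congr 1
    · refine sum_congr rfl fun i hi => ?_
      have := mem_range.1 hi
      rw [mul_left_comm, mul_gm (by nlinarith) hl, smul_eq_C_mul]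
    · rw [mul_left_comm, mul_gm (by omega) hl, smul_eq_C_mul]
      simp
  · intro l hl
    have h1 := hmul 0 l hl
    rw [HG0, sum_range_succ, mul_add, mul_sum] at h1
    convert h1 using 1
    rw [add_comm]
    congr 1
    · refine sum_congr rfl fun i hi => ?_
      have := mem_range.1 hi
      rw [mul_left_comm, mul_gm (by nlinarith) hl, smul_eq_C_mul]
    · rw [mul_left_comm, mul_gm le_rfl hl, smul_eq_C_mul]
  · have : m + (m + 2) * (m + 1) = m ^ 2 + 4 * m + 2 := by ring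
    omega

/-- Family II. -/
theorem hasCurveII (m : ℕ) (hd : ((m + 3 : ℕ) : K) = 0) (F : MvPolynomial (Fin (m + 3 + 1)) K)
    (hF : aeval (crv K (m + 3)) F = 0) (b c : ℕ → K)
    (HG1 : aeval (crv K (m + 3)) (pderiv ⟨m + 2, by omega⟩ F)
      = gm K ((m + 3) * (m + 2)) ((m + 1) * (m + 2)))
    (HG2 : ∀ j (hj : j < m), aeval (crv K (m + 3)) (pderiv ⟨j + 2, by omega⟩ F)
      = gm K ((m + 3) * (m + 2)) ((j + 1) * (m + 2))
        - gm K ((m + 3) * (m + 2)) ((j + 2) * (m + 2) + 1))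
    (HG3 : aeval (crv K (m + 3)) (pderiv ⟨1, by omega⟩ F)
      = -(gm K ((m + 3) * (m + 2)) (m + 3)
        + ∑ i ∈ range (m + 1), gm K ((m + 3) * (m + 2)) ((m + 3) * (i + 1))))
    (HG5 : aeval (crv K (m + 3)) (pderiv 0 F)
      = gm K ((m + 3) * (m + 2)) (m + 3)
        + ∑ i ∈ range (m + 1), C (b i) * gm K ((m + 3) * (m + 2)) ((m + 3) * (i + 1) + 1)
        + gm K ((m + 3) * (m + 2)) ((m + 3) * (m + 2)))
    (HG6 : aeval (crv K (m + 3)) (pderiv (Fin.last (m + 3)) F)
      = -(gm K ((m + 3) * (m + 2)) 0 + gm K ((m + 3) * (m + 2)) 1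
        + ∑ i ∈ range m, C (c i) * gm K ((m + 3) * (m + 2)) ((m + 3) * (i + 1) + 1)
        + gm K ((m + 3) * (m + 2)) ((m + 3) * (m + 1)))) :
    HasCurve (m + 3) F := by
  refine hasCurve_of_span (m + 3) (by omega) F hF fun k hk => ?_
  have hN : (m + 3) * (m + 3) - 2 = (m + 1) + (m + 3) * (m + 2) := by
    have : (m + 3) * (m + 3) = (m + 1) + (m + 3) * (m + 2) + 2 := by ring
    omega
  rw [hN] at hk ⊢
  set W := WSub (m + 3) (fun i => aeval (crv K (m + 3)) (pderiv i F)) 0 with hWdef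
  have hmul : ∀ j l, l ≤ m + 1 →
      gm K (m + 1) l * aeval (crv K (m + 3)) (pderiv j F) ∈ W := fun j l hl =>
    mul_G_mem F j l hl
  refine combII W (fun k => gm K ((m + 1) + (m + 3) * (m + 2)) k) m hd b b c
    ?_ ?_ ?_ ?_ ?_ ?_ k ?_
  · intro l hl
    have h1 := hmul ⟨m + 2, by omega⟩ l hl
    rw [HG1, mul_gm (by nlinarith) hl] at h1
    exact h1
  · intro j l hj hl
    have h1 := hmul ⟨j + 2, by omega⟩ l hl
    rw [HG2 j hj, mul_sub, mul_gm (by nlinarith) hl, mul_gm (by nlinarith) hl] at h1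
    exact h1
  · intro l hl
    have h1 := hmul ⟨1, by omega⟩ l hl
    have e1 : ∑ i ∈ range (m + 1), gm K (m + 1) l *
          gm K ((m + 3) * (m + 2)) ((m + 3) * (i + 1))
        = ∑ i ∈ range (m + 1),
          gm K ((m + 1) + (m + 3) * (m + 2)) ((m + 3) * (i + 1) + l) := by
      refine sum_congr rfl fun i hi => ?_
      have := mem_range.1 hi
      rw [mul_gm (by nlinarith) hl]
    rw [HG3, mul_neg, Submodule.neg_mem_iff, mul_add, mul_gm (by nlinarith) hl, mul_sum, e1]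
      at h1
    exact h1
  · have key : ∀ B, B + 1 ≤ (m + 3) * (m + 2) →
        (X 1 : MvPolynomial (Fin 2) K) * gm K ((m + 1) + (m + 3) * (m + 2)) B
          = X 0 ^ (m + 3 - 1) * gm K ((m + 3) * (m + 2)) (B + 1) := by
      intro B hB
      unfold gm
      rw [show m + 1 + (m + 3) * (m + 2) - B
        = (m + 3 - 1) + ((m + 3) * (m + 2) - (B + 1)) by omega]
      ring
    have e1 : (X 1 : MvPolynomial (Fin 2) K) * gm K ((m + 1) + (m + 3) * (m + 2)) (m + 2)
        = X 0 ^ (m + 3 - 1) * gm K ((m + 3) * (m + 2)) (m + 3) := key (m + 2) (by nlinarith)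
    have e3 := key ((m + 2) ^ 2 + (m + 1)) (by nlinarith)
    rw [show (m + 2) ^ 2 + (m + 1) + 1 = (m + 3) * (m + 2) by ring] at e3
    have e2 : (X 1 : MvPolynomial (Fin 2) K) * ∑ i ∈ range (m + 1),
          b i • gm K ((m + 1) + (m + 3) * (m + 2)) ((m + 3) * (i + 1))
        = X 0 ^ (m + 3 - 1) * ∑ i ∈ range (m + 1),
          (C (b i) * gm K ((m + 3) * (m + 2)) ((m + 3) * (i + 1) + 1)) := by
      rw [mul_sum, mul_sum]
      refine sum_congr rfl fun i hi => ?_
      have := mem_range.1 hi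
      have h := key ((m + 3) * (i + 1)) (by nlinarith)
      rw [mul_smul_comm, h, smul_eq_C_mul, mul_left_comm]
    refine WSub.xi_mem _ _ _ _ ?_
    rw [HG5]
    linear_combination e1 + e2 + e3
  · intro l hl
    have h1 := hmul 0 l hl
    have e1 : ∑ i ∈ range (m + 1), gm K (m + 1) l *
          (C (b i) * gm K ((m + 3) * (m + 2)) ((m + 3) * (i + 1) + 1))
        = ∑ i ∈ range (m + 1), b i •
          gm K ((m + 1) + (m + 3) * (m + 2)) ((m + 3) * (i + 1) + 1 + l) := by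
      refine sum_congr rfl fun i hi => ?_
      have := mem_range.1 hi
      rw [mul_left_comm, mul_gm (by nlinarith) hl, smul_eq_C_mul]
    rw [HG5, mul_add, mul_add, mul_gm (by nlinarith) hl, mul_gm le_rfl hl, mul_sum, e1] at h1
    exact h1
  · intro l hl
    have h1 := hmul (Fin.last (m + 3)) l hl
    have e1 : ∑ i ∈ range m, gm K (m + 1) l *
          (C (c i) * gm K ((m + 3) * (m + 2)) ((m + 3) * (i + 1) + 1))
        = ∑ i ∈ range m, c i •
          gm K ((m + 1) + (m + 3) * (m + 2)) ((m + 3) * (i + 1) + 1 + l) := by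
      refine sum_congr rfl fun i hi => ?_
      have := mem_range.1 hi
      rw [mul_left_comm, mul_gm (by nlinarith) hl, smul_eq_C_mul]
    rw [HG6, mul_neg, Submodule.neg_mem_iff, mul_add, mul_add, mul_add, mul_gm (by omega) hl,
      mul_gm (by nlinarith) hl, mul_gm (by nlinarith) hl, mul_sum, e1, zero_add, add_comm 1 l]
      at h1
    exact h1
  · have : m + 1 + (m + 3) * (m + 2) = m ^ 2 + 6 * m + 7 := by ring
    omega

end Pool.Agent.W_MP_fe9afc_ag
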