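import Pool.Agent.W_MP_fe9afc_ag.Defs

/-!
# A criterion for very free curves

If `f_0 = s^e`, `t ∣ f_j` for `j ≠ 0`, and the forms of degree `de - 2` are spanned by the
multiples of the `G_j = (∂_j F)(f)` and by `s^{e-1} G_0 / t`, then `f` is very free.
-/

namespace Pool.Agent.W_MP_fe9afc_ag

open MvPolynomial

variable {K : Type*} [Field K]

/-- Binary forms of degree `N` are spanned by the monomials `s^a t^b`, `a + b = N`. -/
lemma homogeneous_mem (S : Submodule K (MvPolynomial (Fin 2) K)) (N : ℕ)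
    (hS : ∀ a b, a + b = N → (X 0 ^ a * X 1 ^ b : MvPolynomial (Fin 2) K) ∈ S)
    (R : MvPolynomial (Fin 2) K) (hR : R.IsHomogeneous N) : R ∈ S := by
  rw [R.as_sum]
  refine Submodule.sum_mem _ fun m hm => ?_
  have h1 : m.degree = N := by
    rw [← hR (mem_support_iff.1 hm)]
    simp only [Finsupp.weight_apply, Finsupp.sum, Pi.one_apply, smul_eq_mul, mul_one]
    rfl
  have h2 : m 0 + m 1 = N := by
    rw [← h1, Finsupp.degree_eq_sum]
    simp
  have h3 : monomial m (coeff m R) = coeff m R • (X 0 ^ (m 0) * X 1 ^ (m 1) : MvPolynomial (Fin 2) K) := by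
    rw [monomial_eq, Finsupp.prod_fintype _ _ (by simp)]
    simp [C_mul']
  rw [h3]
  exact S.smul_mem _ (hS _ _ h2)

/-- Division of a binary form by the linear form vanishing at `P`. -/
lemma divide (P : Fin 2 → K) (l0 l1 : K) (hl : l0 * P 0 + l1 * P 1 = 1) (M : ℕ)
    (R : MvPolynomial (Fin 2) K) (hR : R.IsHomogeneous (M + 1)) :
    ∃ c : K, ∃ r : MvPolynomial (Fin 2) K, r.IsHomogeneous M ∧
      R = C c * (C l0 * X 0 + C l1 * X 1) ^ (M + 1) + (C (P 1) * X 0 - C (P 0) * X 1) * r := by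
  set ℓ : MvPolynomial (Fin 2) K := C l0 * X 0 + C l1 * X 1 with hℓ
  set L : MvPolynomial (Fin 2) K := C (P 1) * X 0 - C (P 0) * X 1 with hL
  have hℓh : ℓ.IsHomogeneous 1 :=
    ((isHomogeneous_X K 0).C_mul l0).add ((isHomogeneous_X K 1).C_mul l1)
  have hs : (X 0 : MvPolynomial (Fin 2) K) = C (P 0) * ℓ + C l1 * L := by
    have : (C l0 * C (P 0) + C l1 * C (P 1) : MvPolynomial (Fin 2) K) = 1 := by
      rw [← C_mul, ← C_mul, ← C_add, hl, C_1]
    rw [hℓ, hL]
    linear_combination (-(X 0 : MvPolynomial (Fin 2) K)) * this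
  have ht : (X 1 : MvPolynomial (Fin 2) K) = C (P 1) * ℓ - C l0 * L := by
    have : (C l0 * C (P 0) + C l1 * C (P 1) : MvPolynomial (Fin 2) K) = 1 := by
      rw [← C_mul, ← C_mul, ← C_add, hl, C_1]
    rw [hℓ, hL]
    linear_combination (-(X 1 : MvPolynomial (Fin 2) K)) * this
  let S : Submodule K (MvPolynomial (Fin 2) K) :=
    { carrier := {R | ∃ c : K, ∃ r : MvPolynomial (Fin 2) K, r.IsHomogeneous M ∧
        R = C c * ℓ ^ (M + 1) + L * r}
      add_mem' := by
        rintro a b ⟨c, r, hr, rfl⟩ ⟨c', r', hr', rfl⟩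
        exact ⟨c + c', r + r', hr.add hr', by rw [C_add]; ring⟩
      zero_mem' := ⟨0, 0, isHomogeneous_zero _ _ _, by simp⟩
      smul_mem' := by
        rintro a b ⟨c, r, hr, rfl⟩
        exact ⟨a * c, C a * r, hr.C_mul a, by rw [smul_eq_C_mul, C_mul]; ring⟩ }
  have key : ∀ M a b, a + b = M + 1 → ∃ c : K, ∃ r : MvPolynomial (Fin 2) K,
      r.IsHomogeneous M ∧ (X 0 ^ a * X 1 ^ b : MvPolynomial (Fin 2) K)
        = C c * ℓ ^ (M + 1) + L * r := by
    intro M
    induction M with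
    | zero =>
      intro a b hab
      have : (a = 1 ∧ b = 0) ∨ (a = 0 ∧ b = 1) := by omega
      rcases this with ⟨rfl, rfl⟩ | ⟨rfl, rfl⟩
      · exact ⟨P 0, C l1, isHomogeneous_C _ _, by rw [pow_zero, mul_one, zero_add, pow_one, pow_one]; linear_combination hs⟩
      · exact ⟨P 1, C (-l0), isHomogeneous_C _ _, by rw [pow_zero, one_mul, zero_add, pow_one, pow_one, C_neg]; linear_combination ht⟩
    | succ M ih =>
      intro a b hab
      rcases Nat.eq_zero_or_pos a with rfl | ha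
      · obtain ⟨b, rfl⟩ : ∃ b', b = b' + 1 := ⟨b - 1, by omega⟩
        obtain ⟨c, r, hr, h⟩ := ih 0 b (by omega)
        refine ⟨c * P 1, C (- (c * l0)) * ℓ ^ (M + 1) + X 1 * r, ?_, ?_⟩
        · refine IsHomogeneous.add ?_ ?_
          · refine IsHomogeneous.C_mul ?_ _
            simpa using hℓh.pow (M + 1)
          · rw [add_comm]
            exact (isHomogeneous_X K 1).mul hr
        · rw [pow_succ, ← mul_assoc, h, C_mul, C_neg, C_mul]
          linear_combination (C c * ℓ ^ (M + 1)) * ht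
      · obtain ⟨a, rfl⟩ : ∃ a', a = a' + 1 := ⟨a - 1, by omega⟩
        obtain ⟨c, r, hr, h⟩ := ih a b (by omega)
        refine ⟨c * P 0, C (c * l1) * ℓ ^ (M + 1) + X 0 * r, ?_, ?_⟩
        · refine IsHomogeneous.add ?_ ?_
          · refine IsHomogeneous.C_mul ?_ _
            simpa using hℓh.pow (M + 1)
          · rw [add_comm]
            exact (isHomogeneous_X K 0).mul hr
        · rw [pow_succ, mul_right_comm, h, C_mul, C_mul]
          linear_combination (C c * ℓ ^ (M + 1)) * hs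
  exact homogeneous_mem S (M + 1) (fun a b hab => key M a b hab) R hR

/-- The space of forms `r` with `t r = ∑ t h_i G_i + c s^{e-1} G_a`, `deg h_i = e - 2`. -/
def WSub {ι : Type*} [Fintype ι] (e : ℕ) (G : ι → MvPolynomial (Fin 2) K) (a : ι) :
    Submodule K (MvPolynomial (Fin 2) K) where
  carrier := {r | ∃ h : ι → MvPolynomial (Fin 2) K, (∀ i, (h i).IsHomogeneous (e - 2)) ∧
    ∃ c : K, X 1 * r = ∑ i, X 1 * h i * G i + C c * X 0 ^ (e - 1) * G a}
  add_mem' := by
    rintro x y ⟨h, hh, c, hc⟩ ⟨h', hh', c', hc'⟩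
    refine ⟨fun i => h i + h' i, fun i => (hh i).add (hh' i), c + c', ?_⟩
    rw [mul_add, hc, hc', C_add]
    simp only [mul_add, add_mul, Finset.sum_add_distrib]
    ring
  zero_mem' := ⟨fun _ => 0, fun _ => isHomogeneous_zero _ _ _, 0, by simp⟩
  smul_mem' := by
    rintro x y ⟨h, hh, c, hc⟩
    refine ⟨fun i => C x * h i, fun i => (hh i).C_mul x, x * c, ?_⟩
    rw [smul_eq_C_mul, mul_left_comm, hc, mul_add, Finset.mul_sum, C_mul]
    congr 1
    · exact Finset.sum_congr rfl fun i _ => by ring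
    · ring

lemma WSub.mul_mem {ι : Type*} [Fintype ι] (e : ℕ) (G : ι → MvPolynomial (Fin 2) K)
    (a : ι) (i : ι) (h : MvPolynomial (Fin 2) K) (hh : h.IsHomogeneous (e - 2)) :
    h * G i ∈ WSub e G a := by
  classical
  refine ⟨Pi.single i h, fun j => ?_, 0, ?_⟩
  · by_cases hj : j = i
    · subst hj; simpa using hh
    · simp [Pi.single_eq_of_ne hj, isHomogeneous_zero]
  · rw [Finset.sum_eq_single i]
    · simp [mul_assoc]
    · intro j _ hj
      simp [Pi.single_eq_of_ne hj]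
    · simp

lemma WSub.xi_mem {ι : Type*} [Fintype ι] (e : ℕ) (G : ι → MvPolynomial (Fin 2) K)
    (a : ι) (ξ : MvPolynomial (Fin 2) K) (hξ : X 1 * ξ = X 0 ^ (e - 1) * G a) :
    ξ ∈ WSub e G a :=
  ⟨fun _ => 0, fun _ => isHomogeneous_zero _ _ _, 1, by simp [hξ]⟩

/-- **The criterion.** -/
theorem generated_of_WSub {ι : Type*} [Fintype ι] [DecidableEq ι] (e N D : ℕ) (he : 2 ≤ e)
    (hN : N + 1 = D + (e - 1))
    (G f u : ι → MvPolynomial (Fin 2) K) (a : ι) (hG : ∀ i, (G i).IsHomogeneous D)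
    (hfa : f a = X 0 ^ e) (hf : ∀ j, j ≠ a → f j = X 1 * u j)
    (hu : ∀ j, (u j).IsHomogeneous (e - 1))
    (heuler : ∑ i, f i * G i = 0)
    (hW : ∀ k l, k + l = N → (X 0 ^ k * X 1 ^ l : MvPolynomial (Fin 2) K) ∈ WSub e G a)
    (P : Fin 2 → K) (hP : P ≠ 0) (w : ι → K) (hw : ∑ i, w i * eval P (G i) = 0) :
    ∃ v : ι → MvPolynomial (Fin 2) K, ((∀ i, (v i).IsHomogeneous (e - 1)) ∧
      ∑ i, v i * G i = 0) ∧ ∃ c : K, ∀ i, w i = eval P (v i) + c * eval P (f i) := by
  obtain ⟨l0, l1, hl⟩ : ∃ l0 l1 : K, l0 * P 0 + l1 * P 1 = 1 := by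
    by_cases h0 : P 0 = 0
    · have h1 : P 1 ≠ 0 := by
        intro h1
        apply hP
        funext i
        fin_cases i <;> simp [h0, h1]
      exact ⟨0, (P 1)⁻¹, by simp [h1]⟩
    · exact ⟨(P 0)⁻¹, 0, by simp [h0]⟩
  set ℓ : MvPolynomial (Fin 2) K := C l0 * X 0 + C l1 * X 1 with hℓ
  set L : MvPolynomial (Fin 2) K := C (P 1) * X 0 - C (P 0) * X 1 with hL
  have hℓh : ℓ.IsHomogeneous 1 :=
    ((isHomogeneous_X K 0).C_mul l0).add ((isHomogeneous_X K 1).C_mul l1)
  have hLh : L.IsHomogeneous 1 :=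
    ((isHomogeneous_X K 0).C_mul _).sub ((isHomogeneous_X K 1).C_mul _)
  have hℓP : eval P ℓ = 1 := by simp [hℓ, hl]
  have hLP : eval P L = 0 := by simp [hL]; ring
  -- the lift of `w`
  have hqh : (ℓ ^ (e - 1)).IsHomogeneous (e - 1) := by simpa using hℓh.pow (e - 1)
  have hR : (∑ i, C (w i) * ℓ ^ (e - 1) * G i).IsHomogeneous (N + 1) := by
    rw [hN, add_comm D]
    exact IsHomogeneous.sum _ _ _ fun i _ => ((hqh.C_mul (w i)).mul (hG i))
  obtain ⟨c0, r, hr, hRr⟩ := divide P l0 l1 hl N _ hR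
  rw [← hℓ, ← hL] at hRr
  have hc0 : c0 = 0 := by
    have h := congrArg (eval P) hRr
    simp only [map_sum, map_mul, map_add, map_pow, eval_C, hℓP, hLP, one_pow, mul_one,
      zero_mul, add_zero] at h
    rw [← h, hw]
  rw [hc0, C_0, zero_mul, zero_add] at hRr
  obtain ⟨h, hh, c, hc⟩ : r ∈ WSub e G a := homogeneous_mem _ N hW r hr
  -- the correction term
  let ζ : ι → MvPolynomial (Fin 2) K := fun j =>
    if j = a then - C (P 0) * X 0 ^ (e - 1) else - C (P 1) * u j
  have hζh : ∀ j, (ζ j).IsHomogeneous (e - 1) := by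
    intro j
    simp only [ζ]
    split_ifs
    · have := ((isHomogeneous_X K (0 : Fin 2)).pow (e - 1)).C_mul (-(P 0))
      simpa using this
    · simpa using (hu j).C_mul (-(P 1))
  have hζG : X 1 * ∑ i, ζ i * G i = L * (X 0 ^ (e - 1) * G a) := by
    have h1 : ∑ i, f i * G i = f a * G a + ∑ i ∈ Finset.univ.erase a, f i * G i :=
      (Finset.add_sum_erase _ _ (Finset.mem_univ a)).symm
    have h2 : ∑ i, ζ i * G i = ζ a * G a + ∑ i ∈ Finset.univ.erase a, ζ i * G i :=
      (Finset.add_sum_erase _ _ (Finset.mem_univ a)).symm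
    have h3 : X 1 * ∑ i ∈ Finset.univ.erase a, ζ i * G i
        = - C (P 1) * ∑ i ∈ Finset.univ.erase a, f i * G i := by
      rw [Finset.mul_sum, Finset.mul_sum]
      refine Finset.sum_congr rfl fun i hi => ?_
      have hia : i ≠ a := (Finset.mem_erase.1 hi).1
      simp only [ζ, if_neg hia, hf i hia]
      ring
    have h4 : ζ a = - C (P 0) * X 0 ^ (e - 1) := by simp [ζ]
    have h5 : (X 0 : MvPolynomial (Fin 2) K) ^ e = X 0 * X 0 ^ (e - 1) := by
      rw [← pow_succ']; congr 1; omega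
    rw [h2, mul_add, h3, h4, hL]
    rw [h1, hfa, h5] at heuler
    linear_combination (- C (P 1)) * heuler
  refine ⟨fun i => C (w i) * ℓ ^ (e - 1) - L * h i - C c * ζ i, ⟨fun i => ?_, ?_⟩, -c,
    fun i => ?_⟩
  · refine ((hqh.C_mul _).sub ?_).sub ((hζh i).C_mul c)
    have := hLh.mul (hh i)
    rwa [show 1 + (e - 2) = e - 1 by omega] at this
  · have h1 : X 1 * ∑ i, (C (w i) * ℓ ^ (e - 1) - L * h i - C c * ζ i) * G i = 0 := by
      have h2 : ∑ i, (C (w i) * ℓ ^ (e - 1) - L * h i - C c * ζ i) * G i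
          = ∑ i, C (w i) * ℓ ^ (e - 1) * G i - L * ∑ i, h i * G i - C c * ∑ i, ζ i * G i := by
        rw [Finset.mul_sum, Finset.mul_sum, ← Finset.sum_sub_distrib, ← Finset.sum_sub_distrib]
        exact Finset.sum_congr rfl fun i _ => by ring
      have h3 : ∑ i, X 1 * h i * G i = X 1 * ∑ i, h i * G i := by
        rw [Finset.mul_sum]
        exact Finset.sum_congr rfl fun i _ => by ring
      rw [h3] at hc
      rw [h2, hRr]
      linear_combination L * hc - C c * hζG
    have hX : (X 1 : MvPolynomial (Fin 2) K) ≠ 0 := X_ne_zero 1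
    exact (mul_eq_zero.1 h1).resolve_left hX
  · have h5 : (P 0) ^ e = P 0 * (P 0) ^ (e - 1) := by
      rw [← pow_succ']; congr 1; omega
    simp only [map_sub, map_mul, map_pow, eval_C, hℓP, hLP, one_pow, mul_one, zero_mul,
      sub_zero]
    by_cases hi : i = a
    · subst hi
      simp only [ζ, if_true, hfa, map_mul, map_neg, map_pow, eval_C, eval_X, h5]
      ring
    · simp only [ζ, if_neg hi, hf i hi, map_mul, map_neg, eval_C, eval_X]
      ring

end Pool.Agent.W_MP_fe9afc_ag
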