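import Mathlib

/-!
# Smooth hypersurfaces and very free rational curves on them

Let `K` be a field (in the application `K` is the algebraic closure of `𝔽_p`), let
`F ∈ K[x_0, …, x_n]` be a form of degree `d` and let `X = {F = 0} ⊂ ℙⁿ_K`.

* `IsSmoothHypersurface F` : the Jacobian criterion at all `K`-points of `X`.
* A morphism `ℙ¹ → X` is given by binary forms `f_0, …, f_n ∈ K[s, t]` of one degree `e` without a
  common zero and with `F(f_0, …, f_n) = 0`: this is `IsCurveOn F e f` (here `s = X 0`,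
  `t = X 1`).
* For such an `f` with `X` smooth along the image, the Euler sequence and the sequence
  `0 → T_X → T_{ℙⁿ}|_X → 𝒪_X(d) → 0` present the vector bundle `f^*T_X` as
  `ker (𝒪(e)^{n+1} → 𝒪(de), v ↦ ∑ v_i (∂_i F)(f)) / 𝒪 · (f_0, …, f_n)`.
  As `H⁰(ℙ¹, 𝒪(-1)) = H¹(ℙ¹, 𝒪(-1)) = 0`, the global sections of `f^*T_X(-1)` are exactly the
  tuples `v_0, …, v_n` of forms of degree `e - 1` with `∑ v_i (∂_i F)(f) = 0`
  (`IsSectionTwist F e f v`), and its fibre at a point `P` is
  `{w ∈ K^{n+1} | ∑ w_i (∂_i F)(f(P)) = 0} / K · f(P)`.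
  A vector bundle `⨁ 𝒪(a_i)` on `ℙ¹` is ample iff all `a_i ≥ 1`, i.e. iff its twist by `𝒪(-1)` is
  globally generated.  So `f^*T_X` is ample iff every vector of every fibre of `f^*T_X(-1)` is the
  value of a global section; this is `IsVeryFree F e f`.
* `IsSRC F` : there is a very free rational curve on `X`.
-/

namespace Pool.Agent.W_MP_fe9afc_ag

open MvPolynomial

variable {K : Type*} [Field K] {n : ℕ}

/-- The projective hypersurface `{F = 0}` has no singular `K`-point (Jacobian criterion; for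
`K` algebraically closed this is smoothness). -/
def IsSmoothHypersurface (F : MvPolynomial (Fin (n + 1)) K) : Prop :=
  ∀ x : Fin (n + 1) → K, x ≠ 0 → eval x F = 0 → ∃ i, eval x (pderiv i F) ≠ 0

/-- The binary forms `f_0, …, f_n` have the same degree `e`, have no common zero in `ℙ¹(K)`
and satisfy `F(f_0, …, f_n) = 0`, that is, they define a morphism of degree `e` from `ℙ¹` to the
hypersurface `{F = 0}`. -/
structure IsCurveOn (F : MvPolynomial (Fin (n + 1)) K) (e : ℕ)
    (f : Fin (n + 1) → MvPolynomial (Fin 2) K) : Prop where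
  homogeneous : ∀ i, (f i).IsHomogeneous e
  noCommonZero : ∀ P : Fin 2 → K, P ≠ 0 → ∃ i, eval P (f i) ≠ 0
  onHypersurface : aeval f F = 0

/-- `v` is a global section of `f^*T_X(-1)`: a tuple of forms of degree `e - 1` with
`∑ v_i (∂_i F)(f) = 0`. -/
def IsSectionTwist (F : MvPolynomial (Fin (n + 1)) K) (e : ℕ)
    (f v : Fin (n + 1) → MvPolynomial (Fin 2) K) : Prop :=
  (∀ i, (v i).IsHomogeneous (e - 1)) ∧ ∑ i, v i * aeval f (pderiv i F) = 0

/-- The morphism `f : ℙ¹ → X = {F = 0}` is very free: `f^*T_X` is ample, i.e. `f^*T_X(-1)` is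
globally generated: at every point `P` of `ℙ¹`, every tangent vector
`w ∈ {w | ∑ w_i (∂_i F)(f(P)) = 0} / K f(P)` is the value at `P` of a global section of
`f^*T_X(-1)`. -/
structure IsVeryFree (F : MvPolynomial (Fin (n + 1)) K) (e : ℕ)
    (f : Fin (n + 1) → MvPolynomial (Fin 2) K) : Prop extends IsCurveOn F e f where
  pos : 1 ≤ e
  generated : ∀ P : Fin 2 → K, P ≠ 0 → ∀ w : Fin (n + 1) → K,
    ∑ i, w i * eval (fun j => eval P (f j)) (pderiv i F) = 0 →
    ∃ v, IsSectionTwist F e f v ∧ ∃ c : K, ∀ i, w i = eval P (v i) + c * eval P (f i)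

/-- The hypersurface `{F = 0}` carries a very free rational curve: it is separably rationally
connected (for `K` algebraically closed). -/
def IsSRC (F : MvPolynomial (Fin (n + 1)) K) : Prop :=
  ∃ e f, IsVeryFree F e f

end Pool.Agent.W_MP_fe9afc_ag
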