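import Pool.Agent.W_MP_fe9afc_ag.Criterion

/-!
# From `ℙⁿ` to `ℙⁿ⁺¹`

`HasCurve d F` packages a curve of degree `d` on `{F = 0}` satisfying the hypothesis of the
criterion.  It is inherited by `F + b y + y^d`, where `y` is a new variable.
`NoCrit` and `AxisCrit` are two sufficient conditions for smoothness.
-/

namespace Pool.Agent.W_MP_fe9afc_ag

open MvPolynomial

variable {K : Type*} [Field K] {n : ℕ}

/-- A curve of degree `d` on `{F = 0}` satisfying the hypothesis of the criterion. -/
def HasCurve (d : ℕ) (F : MvPolynomial (Fin (n + 1)) K) : Prop :=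
  ∃ f u : Fin (n + 1) → MvPolynomial (Fin 2) K, f 0 = X 0 ^ d ∧ (∀ j, j ≠ 0 → f j = X 1 * u j) ∧
    (∀ j, (u j).IsHomogeneous (d - 1)) ∧ (∃ j, f j = X 1 ^ d) ∧ aeval f F = 0 ∧
    ∀ k l, k + l = d * d - 2 →
      (X 0 ^ k * X 1 ^ l : MvPolynomial (Fin 2) K) ∈ WSub d (fun i => aeval f (pderiv i F)) 0

lemma eval_aeval_forms (f : Fin (n + 1) → MvPolynomial (Fin 2) K)
    (G : MvPolynomial (Fin (n + 1)) K) (P : Fin 2 → K) :
    eval P (aeval f G) = eval (fun j => eval P (f j)) G := by
  have h : (eval P : MvPolynomial (Fin 2) K →+* K).comp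
      (aeval f : MvPolynomial (Fin (n + 1)) K →ₐ[K] MvPolynomial (Fin 2) K).toRingHom
      = eval (fun j => eval P (f j)) := by
    apply MvPolynomial.ringHom_ext
    · intro r
      simp [algebraMap_eq]
    · intro i
      simp
  exact congrArg (fun g : MvPolynomial (Fin (n + 1)) K →+* K => g G) h

theorem HasCurve.isSRC {d : ℕ} (hd : 2 ≤ d) {F : MvPolynomial (Fin (n + 1)) K}
    (hF : F.IsHomogeneous d) (h : HasCurve d F) : IsSRC F := by
  obtain ⟨f, u, hf0, hf, hu, ⟨j1, hj1⟩, hFf, hW⟩ := h
  have hfh : ∀ i, (f i).IsHomogeneous d := by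
    intro i
    by_cases hi : i = 0
    · rw [hi, hf0]; exact isHomogeneous_X_pow _ _
    · rw [hf i hi]
      have := (isHomogeneous_X K (1 : Fin 2)).mul (hu i)
      rwa [show 1 + (d - 1) = d by omega] at this
  refine ⟨d, f, ⟨⟨hfh, ?_, hFf⟩, by omega, ?_⟩⟩
  · intro P hP
    by_cases h0 : P 0 = 0
    · have h1 : P 1 ≠ 0 := by
        intro h1
        apply hP
        funext i
        fin_cases i <;> simp [h0, h1]
      exact ⟨j1, by simp [hj1, h1]⟩
    · exact ⟨0, by simp [hf0, h0]⟩
  · intro P hP w hw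
    have hG : ∀ i, (aeval f (pderiv i F)).IsHomogeneous (d * (d - 1)) := fun i =>
      (hF.pderiv (i := i)).aeval f hfh
    have heuler : ∑ i, f i * aeval f (pderiv i F) = 0 := by
      have h1 := congrArg (aeval f) (hF.sum_X_mul_pderiv)
      rw [map_sum, map_nsmul, hFf, smul_zero] at h1
      rw [← h1]
      exact Finset.sum_congr rfl fun i _ => by rw [map_mul, aeval_X]
    have hdd : d * (d - 1) + (d - 1) = d * d - 2 + 1 := by
      obtain ⟨k, rfl⟩ : ∃ k, d = k + 2 := ⟨d - 2, by omega⟩
      have : (k + 2) * (k + 2) = (k + 2) * (k + 1) + (k + 1) + 1 := by ring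
      simp only [show k + 2 - 1 = k + 1 by omega]
      omega
    refine generated_of_WSub d (d * d - 2) (d * (d - 1)) hd hdd.symm
      (fun i => aeval f (pderiv i F)) f u 0 hG hf0 hf hu heuler hW P hP w ?_
    rw [← hw]
    exact Finset.sum_congr rfl fun i _ => by rw [eval_aeval_forms]

/-- Add a new variable `y`: the form `F + b y + y^d`. -/
noncomputable def extP {R : Type*} [CommSemiring R] (d : ℕ) (F b : MvPolynomial (Fin (n + 1)) R) :
    MvPolynomial (Fin (n + 2)) R :=
  rename Fin.castSucc F + rename Fin.castSucc b * X (Fin.last (n + 1)) + X (Fin.last (n + 1)) ^ d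

lemma map_extP {R S : Type*} [CommSemiring R] [CommSemiring S] (φ : R →+* S) (d : ℕ)
    (F b : MvPolynomial (Fin (n + 1)) R) :
    map φ (extP d F b) = extP d (map φ F) (map φ b) := by
  simp [extP, map_rename]

lemma extP_homogeneous {R : Type*} [CommSemiring R] (d : ℕ) (hd : 1 ≤ d)
    (F b : MvPolynomial (Fin (n + 1)) R) (hF : F.IsHomogeneous d) (hb : b.IsHomogeneous (d - 1)) :
    (extP d F b).IsHomogeneous d := by
  refine (IsHomogeneous.add hF.rename_isHomogeneous ?_).add (isHomogeneous_X_pow _ _)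
  have := hb.rename_isHomogeneous (f := (Fin.castSucc : Fin (n + 1) → Fin (n + 2)))
  have := this.mul (isHomogeneous_X R (Fin.last (n + 1)))
  rwa [Nat.sub_add_cancel hd] at this

lemma pderiv_last_rename {R : Type*} [CommSemiring R] (F : MvPolynomial (Fin (n + 1)) R) :
    pderiv (Fin.last (n + 1)) (rename Fin.castSucc F) = 0 := by
  apply pderiv_eq_zero_of_notMem_vars
  intro h
  have h1 := vars_rename Fin.castSucc F h
  rw [Finset.mem_image] at h1
  obtain ⟨i, _, hi⟩ := h1
  exact (Fin.castSucc_ne_last i) hi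

lemma pderiv_castSucc_extP {R : Type*} [CommSemiring R] (d : ℕ)
    (F b : MvPolynomial (Fin (n + 1)) R) (i : Fin (n + 1)) :
    pderiv (Fin.castSucc i) (extP d F b)
      = rename Fin.castSucc (pderiv i F)
        + rename Fin.castSucc (pderiv i b) * X (Fin.last (n + 1)) := by
  have hne : pderiv (Fin.castSucc i) (X (Fin.last (n + 1)) : MvPolynomial (Fin (n + 2)) R) = 0 :=
    pderiv_X_of_ne (Fin.castSucc_ne_last i).symm
  rw [extP, map_add, map_add, pderiv_rename (Fin.castSucc_injective _), pderiv_mul,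
    pderiv_rename (Fin.castSucc_injective _), hne, pderiv_pow, hne]
  simp

lemma pderiv_last_extP {R : Type*} [CommSemiring R] (d : ℕ)
    (F b : MvPolynomial (Fin (n + 1)) R) :
    pderiv (Fin.last (n + 1)) (extP d F b)
      = rename Fin.castSucc b + (d : MvPolynomial (Fin (n + 2)) R) * X (Fin.last (n + 1)) ^ (d - 1) := by
  rw [extP, map_add, map_add, pderiv_mul, pderiv_last_rename, pderiv_last_rename, pderiv_pow,
    pderiv_X_self]
  simp

lemma eval_rename_castSucc (F : MvPolynomial (Fin (n + 1)) K) (x : Fin (n + 2) → K) :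
    eval x (rename Fin.castSucc F) = eval (x ∘ Fin.castSucc) F := eval_rename _ _ _

/-- The curve property passes to `F + b y + y^d`. -/
theorem HasCurve.ext {d : ℕ} (hd : 1 ≤ d) {F : MvPolynomial (Fin (n + 1)) K}
    (b : MvPolynomial (Fin (n + 1)) K) (h : HasCurve d F) : HasCurve d (extP d F b) := by
  obtain ⟨f, u, hf0, hf, hu, ⟨j1, hj1⟩, hFf, hW⟩ := h
  let f' : Fin (n + 2) → MvPolynomial (Fin 2) K := Fin.snoc f 0
  let u' : Fin (n + 2) → MvPolynomial (Fin 2) K := Fin.snoc u 0
  have hf'1 : f' (Fin.last (n + 1)) = 0 := by simp [f']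
  have hf'2 : ∀ i : Fin (n + 1), f' (Fin.castSucc i) = f i := by intro i; simp [f']
  have hu'1 : u' (Fin.last (n + 1)) = 0 := by simp [u']
  have hu'2 : ∀ i : Fin (n + 1), u' (Fin.castSucc i) = u i := by intro i; simp [u']
  have hcomp : f' ∘ Fin.castSucc = f := by funext i; exact hf'2 i
  have hren : ∀ G : MvPolynomial (Fin (n + 1)) K, aeval f' (rename Fin.castSucc G) = aeval f G := by
    intro G
    rw [aeval_rename, hcomp]
  have hGi : ∀ i : Fin (n + 1), aeval f' (pderiv (Fin.castSucc i) (extP d F b))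
      = aeval f (pderiv i F) := by
    intro i
    rw [pderiv_castSucc_extP, map_add, map_mul, hren, aeval_X, hf'1, mul_zero, add_zero]
  refine ⟨f', u', ?_, ?_, ?_, ⟨Fin.castSucc j1, ?_⟩, ?_, ?_⟩
  · have := hf'2 0
    rw [Fin.castSucc_zero] at this
    rw [this, hf0]
  · intro j
    refine Fin.lastCases ?_ (fun i => ?_) j
    · intro _
      rw [hf'1, hu'1, mul_zero]
    · intro hi
      rw [hf'2, hu'2]
      apply hf
      rintro rfl
      exact hi (by simp)
  · intro j
    refine Fin.lastCases ?_ (fun i => ?_) j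
    · rw [hu'1]; exact isHomogeneous_zero _ _ _
    · rw [hu'2]; exact hu i
  · rw [hf'2, hj1]
  · rw [extP, map_add, map_add, map_mul, map_pow, hren, aeval_X, hf'1, hFf, mul_zero, zero_pow
      (by omega)]
    simp
  · intro k l hkl
    obtain ⟨h, hh, c, hc⟩ := hW k l hkl
    refine ⟨Fin.snoc h 0, ?_, c, ?_⟩
    · intro j
      refine Fin.lastCases ?_ (fun i => ?_) j
      · simp [isHomogeneous_zero]
      · simpa using hh i
    · rw [hc, Fin.sum_univ_castSucc (n := n + 1)]
      have h0 := hGi 0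
      rw [Fin.castSucc_zero] at h0
      simp only [Fin.snoc_castSucc, Fin.snoc_last, hGi, h0, mul_zero, zero_mul, add_zero]

/-- All critical points of `F` are zero. -/
def NoCrit (F : MvPolynomial (Fin (n + 1)) K) : Prop :=
  ∀ x : Fin (n + 1) → K, (∀ i, eval x (pderiv i F) = 0) → x = 0

/-- All critical points of `F` are on the `v`-axis, and `F` does not vanish on that axis. -/
def AxisCrit (F : MvPolynomial (Fin (n + 1)) K) (v : Fin (n + 1)) : Prop :=
  (∀ x : Fin (n + 1) → K, (∀ i, eval x (pderiv i F) = 0) → ∀ i, i ≠ v → x i = 0) ∧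
  ∀ x : Fin (n + 1) → K, (∀ i, i ≠ v → x i = 0) → eval x F = 0 → x v = 0

lemma NoCrit.smooth {F : MvPolynomial (Fin (n + 1)) K} (h : NoCrit F) :
    IsSmoothHypersurface F := by
  intro x hx _
  by_contra hc
  push Not at hc
  exact hx (h x hc)

lemma AxisCrit.smooth {F : MvPolynomial (Fin (n + 1)) K} {v : Fin (n + 1)} (h : AxisCrit F v) :
    IsSmoothHypersurface F := by
  intro x hx hF
  by_contra hc
  push Not at hc
  have h1 := h.1 x hc
  have h2 := h.2 x h1 hF
  apply hx
  funext i
  by_cases hi : i = v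
  · rw [hi, h2]; rfl
  · exact h1 i hi

lemma eval_castSucc_pderiv {d : ℕ} (F b : MvPolynomial (Fin (n + 1)) K) (x : Fin (n + 2) → K)
    (i : Fin (n + 1)) :
    eval x (pderiv (Fin.castSucc i) (extP d F b))
      = eval (x ∘ Fin.castSucc) (pderiv i F)
        + eval (x ∘ Fin.castSucc) (pderiv i b) * x (Fin.last (n + 1)) := by
  rw [pderiv_castSucc_extP, map_add, map_mul, eval_rename_castSucc, eval_rename_castSucc, eval_X]

lemma eval_last_pderiv {d : ℕ} (F b : MvPolynomial (Fin (n + 1)) K) (x : Fin (n + 2) → K) :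
    eval x (pderiv (Fin.last (n + 1)) (extP d F b))
      = eval (x ∘ Fin.castSucc) b + d * x (Fin.last (n + 1)) ^ (d - 1) := by
  rw [pderiv_last_extP, map_add, map_mul, map_pow, eval_rename_castSucc, eval_X, map_natCast]

/-- `p ∤ d`: add `y^d`. -/
lemma NoCrit.ext {d : ℕ} (hd : (d : K) ≠ 0) {F : MvPolynomial (Fin (n + 1)) K} (h : NoCrit F) :
    d ≠ 1 → NoCrit (extP d F 0) := by
  intro hd1 x hx
  have h1 := hx (Fin.last (n + 1))
  rw [eval_last_pderiv, map_zero, zero_add] at h1
  have h2 : x (Fin.last (n + 1)) = 0 := by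
    have := (mul_eq_zero.1 h1).resolve_left hd
    refine (pow_eq_zero_iff (n := d - 1) ?_).1 this
    rcases Nat.lt_or_ge 1 d with h | h
    · omega
    · exfalso
      have : d = 0 := by omega
      exact hd (by rw [this, Nat.cast_zero])
  have h3 : x ∘ Fin.castSucc = 0 := by
    apply h
    intro i
    have := hx (Fin.castSucc i)
    rw [eval_castSucc_pderiv] at this
    simpa using this
  funext j
  refine Fin.lastCases ?_ (fun i => ?_) j
  · exact h2
  · exact congrFun h3 i

/-- `p ∣ d`, `d ≥ 3`: add `x_v^{d-1} y + y^d`. -/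
lemma AxisCrit.ext {d : ℕ} (hd : (d : K) = 0) (hd3 : 3 ≤ d) {F : MvPolynomial (Fin (n + 1)) K}
    {v : Fin (n + 1)} (h : AxisCrit F v) (hF : F.IsHomogeneous d) :
    AxisCrit (extP d F (X v ^ (d - 1))) (Fin.last (n + 1)) := by
  constructor
  · intro x hx
    have h1 := hx (Fin.last (n + 1))
    rw [eval_last_pderiv, hd, zero_mul, add_zero, map_pow, eval_X] at h1
    have h2 : x (Fin.castSucc v) = 0 := (pow_eq_zero_iff (n := d - 1) (by omega)).1 h1
    have h3 : ∀ i, eval (x ∘ Fin.castSucc) (pderiv i F) = 0 := by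
      intro i
      have := hx (Fin.castSucc i)
      rw [eval_castSucc_pderiv, pderiv_pow, map_mul, map_mul, map_pow, eval_X,
        Function.comp_apply, h2, zero_pow (by omega), mul_zero, zero_mul, zero_mul,
        add_zero] at this
      exact this
    have h4 := h.1 _ h3
    intro j
    refine Fin.lastCases ?_ (fun i => ?_) j
    · intro hj; exact absurd rfl hj
    · intro _
      by_cases hi : i = v
      · rw [hi, h2]
      · exact h4 i hi
  · intro x hx h0
    have h1 : x ∘ Fin.castSucc = 0 := by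
      funext i
      exact hx _ (Fin.castSucc_ne_last i)
    rw [extP, map_add, map_add, map_mul, eval_rename_castSucc, eval_rename_castSucc, map_pow,
      map_pow, eval_X, eval_X, h1, Pi.zero_apply, zero_pow (by omega), zero_mul, add_zero] at h0
    have h2 : eval (0 : Fin (n + 1) → K) F = 0 := by
      have h3 : constantCoeff F = 0 := by
        rw [constantCoeff_eq]
        apply hF.coeff_eq_zero
        simp
        omega
      rw [← h3, eval_zero]
    rw [h2, zero_add] at h0
    exact (pow_eq_zero_iff (n := d) (by omega)).1 h0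

/-- `p = d = 2`, first step: add `x_v y + y^2`. -/
lemma AxisCrit.ext2 (h2 : (2 : K) = 0) {F : MvPolynomial (Fin (n + 1)) K}
    {v : Fin (n + 1)} (h : AxisCrit F v) (hv : pderiv v F = 0) :
    NoCrit (extP 2 F (X v)) := by
  intro x hx
  have h1 := hx (Fin.last (n + 1))
  rw [eval_last_pderiv, Nat.cast_ofNat, h2, zero_mul, add_zero, eval_X] at h1
  have h1' : x (Fin.castSucc v) = 0 := h1
  have h5 : x (Fin.last (n + 1)) = 0 := by
    have := hx (Fin.castSucc v)
    rw [eval_castSucc_pderiv, hv, pderiv_X_self, map_one, one_mul, map_zero, zero_add] at this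
    exact this
  have h6 := h.1 (x ∘ Fin.castSucc) (by
    intro i
    have := hx (Fin.castSucc i)
    rw [eval_castSucc_pderiv, h5, mul_zero, add_zero] at this
    exact this)
  funext j
  refine Fin.lastCases ?_ (fun i => ?_) j
  · exact h5
  · by_cases hi : i = v
    · rw [hi]; exact h1'
    · exact h6 i hi

/-- `p = d = 2`, second step: add `y^2`. -/
lemma NoCrit.ext2 (h2 : (2 : K) = 0) {F : MvPolynomial (Fin (n + 1)) K}
    (h : NoCrit F) (hF : F.IsHomogeneous 2) :
    AxisCrit (extP 2 F 0) (Fin.last (n + 1)) ∧ pderiv (Fin.last (n + 1)) (extP 2 F 0) = 0 := by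
  refine ⟨⟨?_, ?_⟩, ?_⟩
  · intro x hx
    have h3 : x ∘ Fin.castSucc = 0 := by
      apply h
      intro i
      have := hx (Fin.castSucc i)
      rw [eval_castSucc_pderiv] at this
      simpa using this
    intro j
    refine Fin.lastCases ?_ (fun i => ?_) j
    · intro hj; exact absurd rfl hj
    · intro _; exact congrFun h3 i
  · intro x hx h0
    have h1 : x ∘ Fin.castSucc = 0 := by
      funext i
      exact hx _ (Fin.castSucc_ne_last i)
    rw [extP, map_add, map_add, map_mul, eval_rename_castSucc, map_zero, map_zero, zero_mul,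
      add_zero, map_pow, eval_X, h1] at h0
    have h3 : eval (0 : Fin (n + 1) → K) F = 0 := by
      have h3 : constantCoeff F = 0 := by
        rw [constantCoeff_eq]
        apply hF.coeff_eq_zero
        simp
      rw [← h3, eval_zero]
    rw [h3, zero_add] at h0
    exact (pow_eq_zero_iff (n := 2) (by omega)).1 h0
  · rw [pderiv_last_extP]
    have : ((2 : ℕ) : MvPolynomial (Fin (n + 2)) K) = 0 := by
      have h : (C (2 : K) : MvPolynomial (Fin (n + 2)) K) = 0 := by rw [h2, C_0]
      rw [Nat.cast_ofNat, ← h, map_ofNat]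
    rw [this]
    simp

end Pool.Agent.W_MP_fe9afc_ag
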