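import Pool.Agent.W_MP_fe9afc_ag.Base

/-!
# Family I: `p ∤ d`
-/

namespace Pool.Agent.W_MP_fe9afc_ag

open MvPolynomial Finset

/-- `∑_{0<i<d} x_0^{d-i} x_d^i`, `d = m + 2`. -/
noncomputable def SI (R : Type*) [CommRing R] (m : ℕ) : MvPolynomial (Fin (m + 2 + 1)) R :=
  ∑ i ∈ range (m + 1), Y R (m + 2) 0 ^ (m + 1 - i) * Y R (m + 2) (m + 2) ^ (i + 1)

/-- `∑_{0<i<d} x_i^d`, `d = m + 2`. -/
noncomputable def PI (R : Type*) [CommRing R] (m : ℕ) : MvPolynomial (Fin (m + 2 + 1)) R :=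
  ∑ i ∈ range (m + 1), Y R (m + 2) (i + 1) ^ (m + 2)

/-- `x_0^{d-q} x_d^q`. -/
noncomputable def TI (R : Type*) [CommRing R] (m q : ℕ) : MvPolynomial (Fin (m + 2 + 1)) R :=
  Y R (m + 2) 0 ^ (m + 2 - q) * Y R (m + 2) (m + 2) ^ q

/-- `x_1^2 x_{d-1}^2 x_0^{d-4}`. -/
noncomputable def UI (R : Type*) [CommRing R] (m : ℕ) : MvPolynomial (Fin (m + 2 + 1)) R :=
  Y R (m + 2) 1 ^ 2 * Y R (m + 2) (m + 1) ^ 2 * Y R (m + 2) 0 ^ (m - 2)

lemma SI_homogeneous (R : Type*) [CommRing R] (m : ℕ) : (SI R m).IsHomogeneous (m + 2) := by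
  refine IsHomogeneous.sum _ _ _ fun i hi => ?_
  have := mem_range.1 hi
  have h := (Y_pow_homogeneous (R := R) (m + 2) 0 (m + 1 - i)).mul
    (Y_pow_homogeneous (R := R) (m + 2) (m + 2) (i + 1))
  rwa [show m + 1 - i + (i + 1) = m + 2 by omega] at h

lemma PI_homogeneous (R : Type*) [CommRing R] (m : ℕ) : (PI R m).IsHomogeneous (m + 2) :=
  IsHomogeneous.sum _ _ _ fun _ _ => Y_pow_homogeneous _ _ _

lemma TI_homogeneous (R : Type*) [CommRing R] (m q : ℕ) (hq : q ≤ m + 2) :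
    (TI R m q).IsHomogeneous (m + 2) := by
  have h := (Y_pow_homogeneous (R := R) (m + 2) 0 (m + 2 - q)).mul
    (Y_pow_homogeneous (R := R) (m + 2) (m + 2) q)
  rwa [show m + 2 - q + q = m + 2 by omega] at h

lemma UI_homogeneous (R : Type*) [CommRing R] (m : ℕ) (hm : 2 ≤ m) :
    (UI R m).IsHomogeneous (m + 2) := by
  have h := ((Y_pow_homogeneous (R := R) (m + 2) 1 2).mul
    (Y_pow_homogeneous (R := R) (m + 2) (m + 1) 2)).mul
    (Y_pow_homogeneous (R := R) (m + 2) 0 (m - 2))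
  rwa [show 2 + 2 + (m - 2) = m + 2 by omega] at h

lemma map_SI {R S : Type*} [CommRing R] [CommRing S] (φ : R →+* S) (m : ℕ) :
    map φ (SI R m) = SI S m := by
  simp [SI, map_Y]

lemma map_PI {R S : Type*} [CommRing R] [CommRing S] (φ : R →+* S) (m : ℕ) :
    map φ (PI R m) = PI S m := by
  simp [PI, map_Y]

lemma map_TI {R S : Type*} [CommRing R] [CommRing S] (φ : R →+* S) (m q : ℕ) :
    map φ (TI R m q) = TI S m q := by
  simp [TI, map_Y]

lemma map_UI {R S : Type*} [CommRing R] [CommRing S] (φ : R →+* S) (m : ℕ) :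
    map φ (UI R m) = UI S m := by
  simp [UI, map_Y]

variable {K : Type*} [Field K]

/-! ### On the curve -/

lemma aeval_PI (m : ℕ) : aeval (crv K (m + 2)) (PI K m) = aeval (crv K (m + 2)) (SI K m) := by
  rw [PI, SI, map_sum, map_sum]
  refine sum_congr rfl fun i hi => ?_
  have := mem_range.1 hi
  rw [map_pow, map_mul, map_pow, map_pow, aeval_Y _ (by omega), aeval_Y _ (by omega),
    aeval_Y _ (by omega), Nat.sub_zero, Nat.sub_self, pow_zero, pow_zero, mul_one, one_mul]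
  obtain ⟨j, rfl⟩ : ∃ j, m = i + j := ⟨m - i, by omega⟩
  rw [show i + j + 2 - (i + 1) = j + 1 by omega, show i + j + 1 - i = j + 1 by omega]
  ring

lemma pderiv_PI_zero (R : Type*) [CommRing R] (m : ℕ) : pderiv 0 (PI R m) = 0 := by
  rw [PI, map_sum]
  refine sum_eq_zero fun i _ => ?_
  rw [pderiv_pow, pderiv_Y, if_neg (by simp), mul_zero]

lemma pderiv_PI_last (R : Type*) [CommRing R] (m : ℕ) :
    pderiv (Fin.last (m + 2)) (PI R m) = 0 := by
  rw [PI, map_sum]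
  refine sum_eq_zero fun i hi => ?_
  have := mem_range.1 hi
  rw [pderiv_pow, pderiv_Y, if_neg (by rw [Fin.val_last]; omega), mul_zero]

lemma pderiv_PI_mid (R : Type*) [CommRing R] (m i : ℕ) (hi : i ≤ m) :
    pderiv ⟨i + 1, by omega⟩ (PI R m)
      = ((m + 2 : ℕ) : MvPolynomial (Fin (m + 2 + 1)) R) * Y R (m + 2) (i + 1) ^ (m + 1) := by
  rw [PI, map_sum, sum_eq_single i]
  · rw [pderiv_pow, pderiv_Y, if_pos rfl, mul_one]
    rfl
  · intro j _ hj
    rw [pderiv_pow, pderiv_Y, if_neg (by simpa using hj), mul_zero]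
  · intro h
    exact absurd (mem_range.2 (by omega)) h

lemma pderiv_SI_mid (R : Type*) [CommRing R] (m i : ℕ) (hi : i ≤ m) :
    pderiv ⟨i + 1, by omega⟩ (SI R m) = 0 := by
  rw [SI, map_sum]
  refine sum_eq_zero fun j _ => ?_
  rw [pderiv_mul, pderiv_pow, pderiv_pow, pderiv_Y, pderiv_Y, if_neg (by simp),
    if_neg (by simp; omega)]
  ring

lemma pderiv_SI_zero (R : Type*) [CommRing R] (m : ℕ) :
    pderiv 0 (SI R m) = ∑ i ∈ range (m + 1), ((m + 1 - i : ℕ) : MvPolynomial (Fin (m + 2 + 1)) R)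
      * (Y R (m + 2) 0 ^ (m - i) * Y R (m + 2) (m + 2) ^ (i + 1)) := by
  rw [SI, map_sum]
  refine sum_congr rfl fun i _ => ?_
  rw [pderiv_mul, pderiv_pow, pderiv_pow, pderiv_Y, pderiv_Y, if_pos (by simp),
    if_neg (by simp), show m + 1 - i - 1 = m - i by omega]
  ring

lemma pderiv_SI_last (R : Type*) [CommRing R] (m : ℕ) :
    pderiv (Fin.last (m + 2)) (SI R m)
      = ∑ i ∈ range (m + 1), ((i + 1 : ℕ) : MvPolynomial (Fin (m + 2 + 1)) R)
      * (Y R (m + 2) 0 ^ (m + 1 - i) * Y R (m + 2) (m + 2) ^ i) := by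
  rw [SI, map_sum]
  refine sum_congr rfl fun i _ => ?_
  rw [pderiv_mul, pderiv_pow, pderiv_pow, pderiv_Y, pderiv_Y, if_neg (by simp),
    if_pos (by simp), show i + 1 - 1 = i by omega]
  ring

lemma pderiv_TI_mid (R : Type*) [CommRing R] (m q i : ℕ) (hi : i ≤ m) :
    pderiv ⟨i + 1, by omega⟩ (TI R m q) = 0 := by
  rw [TI, pderiv_mul, pderiv_pow, pderiv_pow, pderiv_Y, pderiv_Y, if_neg (by simp),
    if_neg (by simp; omega)]
  ring

lemma pderiv_TI_zero (R : Type*) [CommRing R] (m q : ℕ) :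
    pderiv 0 (TI R m q) = ((m + 2 - q : ℕ) : MvPolynomial (Fin (m + 2 + 1)) R)
      * (Y R (m + 2) 0 ^ (m + 1 - q) * Y R (m + 2) (m + 2) ^ q) := by
  rw [TI, pderiv_mul, pderiv_pow, pderiv_pow, pderiv_Y, pderiv_Y, if_pos (by simp),
    if_neg (by simp), show m + 2 - q - 1 = m + 1 - q by omega]
  ring

lemma pderiv_TI_last (R : Type*) [CommRing R] (m q : ℕ) :
    pderiv (Fin.last (m + 2)) (TI R m q) = (q : MvPolynomial (Fin (m + 2 + 1)) R)
      * (Y R (m + 2) 0 ^ (m + 2 - q) * Y R (m + 2) (m + 2) ^ (q - 1)) := by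
  rw [TI, pderiv_mul, pderiv_pow, pderiv_pow, pderiv_Y, pderiv_Y, if_neg (by simp),
    if_pos (by simp)]
  ring

lemma aeval_mono {m : ℕ} (a b : ℕ) (N : ℕ) (h : (m + 2) * a + (m + 2) * b = N) :
    aeval (crv K (m + 2)) (Y K (m + 2) 0 ^ a * Y K (m + 2) (m + 2) ^ b)
      = gm K N ((m + 2) * b) := by
  rw [map_mul, map_pow, map_pow, aeval_Y _ (by omega), aeval_Y _ (by omega), Nat.sub_zero,
    Nat.sub_self, pow_zero, pow_zero, mul_one, one_mul, ← pow_mul, ← pow_mul, gm_eq h]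

lemma G_SI_zero (m : ℕ) : aeval (crv K (m + 2)) (pderiv 0 (SI K m))
    = ∑ i ∈ range (m + 1), C ((m + 1 - i : ℕ) : K)
      * gm K ((m + 2) * (m + 1)) ((m + 2) * (i + 1)) := by
  rw [pderiv_SI_zero, map_sum]
  refine sum_congr rfl fun i hi => ?_
  have := mem_range.1 hi
  obtain ⟨j, rfl⟩ : ∃ j, m = i + j := ⟨m - i, by omega⟩
  rw [map_mul, map_natCast, C_eq_coe_nat, aeval_mono _ _ ((i + j + 2) * (i + j + 1))]
  rw [show i + j - i = j by omega]
  ring

lemma G_SI_last (m : ℕ) : aeval (crv K (m + 2)) (pderiv (Fin.last (m + 2)) (SI K m))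
    = ∑ i ∈ range (m + 1), C ((i + 1 : ℕ) : K)
      * gm K ((m + 2) * (m + 1)) ((m + 2) * i) := by
  rw [pderiv_SI_last, map_sum]
  refine sum_congr rfl fun i hi => ?_
  have := mem_range.1 hi
  obtain ⟨j, rfl⟩ : ∃ j, m = i + j := ⟨m - i, by omega⟩
  rw [map_mul, map_natCast, C_eq_coe_nat, aeval_mono _ _ ((i + j + 2) * (i + j + 1))]
  rw [show i + j + 1 - i = j + 1 by omega]
  ring

lemma aeval_Y_pow {m : ℕ} (i : ℕ) (hi : i ≤ m + 2) (k : ℕ) :
    aeval (crv K (m + 2)) (Y K (m + 2) i ^ k) = gm K ((m + 2) * k) (i * k) := by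
  rw [map_pow, aeval_Y _ (by omega), mul_pow, ← pow_mul, ← pow_mul, gm_eq]
  obtain ⟨j, hj⟩ : ∃ j, m + 2 = i + j := ⟨m + 2 - i, by omega⟩
  rw [hj, show i + j - i = j by omega]
  ring

lemma G_PI_mid (m i : ℕ) (hi : i ≤ m) :
    aeval (crv K (m + 2)) (pderiv ⟨i + 1, by omega⟩ (PI K m))
      = C ((m + 2 : ℕ) : K) * gm K ((m + 2) * (m + 1)) ((i + 1) * (m + 1)) := by
  rw [pderiv_PI_mid _ _ _ hi, map_mul, map_natCast, C_eq_coe_nat, aeval_Y_pow _ (by omega)]

/-! ### Relations for smoothness -/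

lemma SI_identity (R : Type*) [CommRing R] (m : ℕ) :
    (Y R (m + 2) 0 - Y R (m + 2) (m + 2)) * SI R m
      = Y R (m + 2) 0 ^ (m + 2) * Y R (m + 2) (m + 2)
        - Y R (m + 2) 0 * Y R (m + 2) (m + 2) ^ (m + 2) := by
  have h := geom_sum₂_mul (Y R (m + 2) (m + 2)) (Y R (m + 2) 0) (m + 1)
  have h2 : SI R m = Y R (m + 2) 0 * Y R (m + 2) (m + 2) *
      ∑ i ∈ range (m + 1), Y R (m + 2) (m + 2) ^ i * Y R (m + 2) 0 ^ (m + 1 - 1 - i) := by
    rw [SI, mul_sum]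
    refine sum_congr rfl fun i hi => ?_
    have := mem_range.1 hi
    rw [show m + 1 - i = (m + 1 - 1 - i) + 1 by omega]
    ring
  rw [h2]
  linear_combination (-(Y R (m + 2) 0 * Y R (m + 2) (m + 2))) * h

lemma SI_rel (m : ℕ) (x : Fin (m + 2 + 1) → K) :
    (x 0 - x (Fin.last _)) * eval x (SI K m)
      = x 0 ^ (m + 2) * x (Fin.last _) - x 0 * x (Fin.last _) ^ (m + 2) ∧
    eval x (SI K m) + (x 0 - x (Fin.last _)) * eval x (pderiv 0 (SI K m))
      = ((m + 2 : ℕ) : K) * x 0 ^ (m + 1) * x (Fin.last _) - x (Fin.last _) ^ (m + 2) ∧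
    -eval x (SI K m) + (x 0 - x (Fin.last _)) * eval x (pderiv (Fin.last _) (SI K m))
      = x 0 ^ (m + 2) - ((m + 2 : ℕ) : K) * x 0 * x (Fin.last _) ^ (m + 1) := by
  have h := SI_identity K m
  have e0 : eval x (Y K (m + 2) 0) = x 0 := eval_Y x 0 (by omega)
  have e1 : eval x (Y K (m + 2) (m + 2)) = x (Fin.last _) := eval_Y x (m + 2) (by omega)
  have p00 : pderiv 0 (Y K (m + 2) 0) = 1 := by rw [pderiv_Y, if_pos (by simp)]
  have p0d : pderiv 0 (Y K (m + 2) (m + 2)) = 0 := by rw [pderiv_Y, if_neg (by simp)]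
  have pd0 : pderiv (Fin.last _) (Y K (m + 2) 0) = 0 := by rw [pderiv_Y, if_neg (by simp)]
  have pdd : pderiv (Fin.last _) (Y K (m + 2) (m + 2)) = 1 := by rw [pderiv_Y, if_pos (by simp)]
  refine ⟨?_, ?_, ?_⟩
  · have := congrArg (eval x) h
    simpa only [map_mul, map_sub, map_pow, e0, e1] using this
  · have := congrArg (fun g => eval x (pderiv 0 g)) h
    simp only [pderiv_mul, map_sub, pderiv_pow, p00, p0d, map_add, map_mul, map_pow, e0, e1,
      map_natCast, map_one, map_zero, mul_zero, mul_one, one_mul, sub_zero,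
      add_zero, show m + 2 - 1 = m + 1 by omega] at this
    linear_combination this
  · have := congrArg (fun g => eval x (pderiv (Fin.last _) g)) h
    simp only [pderiv_mul, map_sub, pderiv_pow, pd0, pdd, map_add, map_mul, map_pow, e0, e1,
      map_natCast, map_one, map_zero, map_neg, mul_zero, mul_one, zero_mul, zero_sub,
      zero_add, show m + 2 - 1 = m + 1 by omega] at this
    linear_combination this

end Pool.Agent.W_MP_fe9afc_ag
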