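import Pool.Agent.W_MP_fe9afc_ag.FamI

/-!
# Family I: the results
-/

namespace Pool.Agent.W_MP_fe9afc_ag

open MvPolynomial Finset

variable {K : Type*} [Field K]

/-! ### Case A: `F = ∑ x_i^d - ∑ x_0^{d-i} x_d^i` -/

theorem hasCurve_A (m : ℕ) (hd : ((m + 2 : ℕ) : K) ≠ 0) : HasCurve (m + 2) (PI K m - SI K m) := by
  refine hasCurveI m _ ?_ (fun _ => ((m + 2 : ℕ) : K)) (fun i => -((i + 1 : ℕ) : K))
    (fun i => -((m + 1 - i : ℕ) : K)) (fun _ _ => hd) ?_ ?_ ?_ ?_ ?_
  · rw [map_sub, aeval_PI, sub_self]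
  · simp
  · simp
  · intro i hi
    rw [map_sub, map_sub, G_PI_mid _ _ hi, pderiv_SI_mid _ _ _ hi, map_zero, sub_zero]
  · rw [map_sub, map_sub, pderiv_PI_zero, map_zero, zero_sub, G_SI_zero, ← sum_neg_distrib]
    exact sum_congr rfl fun i _ => by rw [C_neg, neg_mul]
  · rw [map_sub, map_sub, pderiv_PI_last, map_zero, zero_sub, G_SI_last, ← sum_neg_distrib]
    exact sum_congr rfl fun i _ => by rw [C_neg, neg_mul]

lemma eval_PI_zero (m : ℕ) (x : Fin (m + 2 + 1) → K)
    (hx : ∀ i (hi : i ≤ m), x ⟨i + 1, by omega⟩ = 0) : eval x (PI K m) = 0 := by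
  rw [PI, map_sum]
  refine sum_eq_zero fun i hi => ?_
  have := mem_range.1 hi
  rw [map_pow, eval_Y x (i + 1) (by omega), hx i (by omega), zero_pow (by omega)]

lemma eq_zero_of_parts (m : ℕ) (x : Fin (m + 2 + 1) → K)
    (hx : ∀ i (hi : i ≤ m), x ⟨i + 1, by omega⟩ = 0) (h0 : x 0 = 0)
    (h1 : x (Fin.last _) = 0) : x = 0 := by
  funext j
  rcases Nat.eq_zero_or_pos (j : ℕ) with hj | hj
  · rw [show j = 0 from Fin.ext hj]; exact h0
  · rcases Nat.lt_or_ge (j : ℕ) (m + 2) with h | h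
    · obtain ⟨i, hi⟩ : ∃ i, (j : ℕ) = i + 1 := ⟨(j : ℕ) - 1, by omega⟩
      rw [show j = ⟨i + 1, by omega⟩ from Fin.ext hi]
      exact hx i (by omega)
    · rw [show j = Fin.last _ from Fin.ext (by rw [Fin.val_last]; omega)]
      exact h1

theorem noCrit_A (m : ℕ) (hd : ((m + 2 : ℕ) : K) ≠ 0) (hd1 : ((m + 1 : ℕ) : K) ≠ 0) :
    NoCrit (PI K m - SI K m) := by
  intro x hx
  have hmid : ∀ i (hi : i ≤ m), x ⟨i + 1, by omega⟩ = 0 := by
    intro i hi
    have h := hx ⟨i + 1, by omega⟩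
    rw [map_sub, pderiv_PI_mid _ _ _ hi, pderiv_SI_mid _ _ _ hi, sub_zero, map_mul, map_natCast,
      map_pow, eval_Y x _ (by omega)] at h
    exact (pow_eq_zero_iff (by omega)).1 ((mul_eq_zero.1 h).resolve_left hd)
  have hF0 : eval x (PI K m - SI K m) = 0 := by
    have h1 := congrArg (eval x)
      (((PI_homogeneous K m).sub (SI_homogeneous K m)).sum_X_mul_pderiv)
    rw [map_sum, map_nsmul] at h1
    have h2 : ∑ i, eval x (X i * pderiv i (PI K m - SI K m)) = 0 :=
      sum_eq_zero fun i _ => by rw [map_mul, hx i, mul_zero]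
    rw [h2, nsmul_eq_mul] at h1
    exact (mul_eq_zero.1 h1.symm).resolve_left hd
  rw [map_sub, eval_PI_zero m x hmid, zero_sub, neg_eq_zero] at hF0
  have h0 := hx 0
  rw [map_sub, pderiv_PI_zero, zero_sub, map_neg, neg_eq_zero] at h0
  have h1 := hx (Fin.last _)
  rw [map_sub, pderiv_PI_last, zero_sub, map_neg, neg_eq_zero] at h1
  obtain ⟨r1, r2, r3⟩ := SI_rel m x
  rw [hF0, mul_zero] at r1
  rw [hF0, h0, mul_zero, add_zero] at r2
  rw [hF0, h1, mul_zero, neg_zero, add_zero] at r3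
  set a := x 0
  set e := x (Fin.last _)
  have hae : a = 0 ∨ e = 0 := by
    by_contra hne
    push Not at hne
    obtain ⟨ha, he⟩ := hne
    have h2 : a ^ (m + 1) = e ^ (m + 1) := by
      have : a * e * (a ^ (m + 1) - e ^ (m + 1)) = 0 := by linear_combination -r1
      have := (mul_eq_zero.1 this).resolve_left (mul_ne_zero ha he)
      linear_combination this
    have h3 : ((m + 1 : ℕ) : K) * e ^ (m + 2) = 0 := by
      push_cast at r2 ⊢
      linear_combination (-1 : K) * r2 - (m + 2 : K) * e * h2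
    exact (mul_ne_zero hd1 (pow_ne_zero _ he)) h3
  have hboth : a = 0 ∧ e = 0 := by
    rcases hae with ha | he
    · refine ⟨ha, ?_⟩
      rw [ha, zero_pow (by omega), mul_zero, zero_mul, zero_sub] at r2
      exact (pow_eq_zero_iff (n := m + 2) (by omega)).1 (neg_eq_zero.1 r2.symm)
    · refine ⟨?_, he⟩
      rw [he, zero_pow (by omega), mul_zero, sub_zero] at r3
      exact (pow_eq_zero_iff (n := m + 2) (by omega)).1 r3.symm
  exact eq_zero_of_parts m x hmid hboth.1 hboth.2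

/-- `p = 2`, `d = 3`. -/
theorem noCrit_A23 (h2 : (2 : K) = 0) : NoCrit (PI K 1 - SI K 1) := by
  intro x hx
  have hd : ((1 + 2 : ℕ) : K) ≠ 0 := by
    intro h
    have h' : (1 : K) + 2 = 0 := by exact_mod_cast h
    rw [h2, add_zero] at h'
    exact one_ne_zero h'
  have hmid : ∀ i (hi : i ≤ 1), x ⟨i + 1, by omega⟩ = 0 := by
    intro i hi
    have h := hx ⟨i + 1, by omega⟩
    rw [map_sub, pderiv_PI_mid _ _ _ hi, pderiv_SI_mid _ _ _ hi, sub_zero, map_mul, map_natCast,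
      map_pow, eval_Y x _ (by omega)] at h
    exact (pow_eq_zero_iff (by omega)).1 ((mul_eq_zero.1 h).resolve_left hd)
  have h0 := hx 0
  rw [map_sub, pderiv_PI_zero, zero_sub, map_neg, neg_eq_zero, pderiv_SI_zero] at h0
  have h1 := hx (Fin.last _)
  rw [map_sub, pderiv_PI_last, zero_sub, map_neg, neg_eq_zero, pderiv_SI_last] at h1
  have e0 : eval x (Y K (1 + 2) 0) = x 0 := eval_Y x 0 (by omega)
  have e1 : eval x (Y K (1 + 2) (1 + 2)) = x (Fin.last _) := eval_Y x (1 + 2) (by omega)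
  simp only [sum_range_succ, sum_range_zero, map_add, map_mul, map_pow, e0, e1, map_natCast] at h0
  simp only [sum_range_succ, sum_range_zero, map_add, map_mul, map_pow, e0, e1, map_natCast] at h1
  norm_num at h0 h1
  rw [h2] at h0 h1
  refine eq_zero_of_parts 1 x hmid ?_ ?_
  · simpa using h1
  · simpa using h0

end Pool.Agent.W_MP_fe9afc_ag
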