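import Pool.Agent.W_MP_fe9afc_ag.FamI2

/-!
# Family I: the case `p ∣ d - 1`
-/

namespace Pool.Agent.W_MP_fe9afc_ag

open MvPolynomial Finset

variable {K : Type*} [Field K]

/-- Smoothness in case B, for both corrections `M`. -/
theorem noCrit_B (m q : ℕ) (hq0 : (q : K) = 0) (hd1 : ((m + 1 : ℕ) : K) = 0) (hq2 : 2 ≤ q)
    (hqm : q ≤ m + 1) (h2 : (2 : K) ≠ 0 ∨ q ≤ m) (M : MvPolynomial (Fin (m + 2 + 1)) K)
    (hMh : M.IsHomogeneous (m + 2))
    (hmid' : ∀ x : Fin (m + 2 + 1) → K,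
      (∀ i, eval x (pderiv i (PI K m - SI K m + (M - TI K m q))) = 0) →
      ∀ i (hi : i ≤ m), x ⟨i + 1, by omega⟩ = 0)
    (hM : ∀ x : Fin (m + 2 + 1) → K, (∀ i (hi : i ≤ m), x ⟨i + 1, by omega⟩ = 0) →
      eval x M = 0 ∧ eval x (pderiv 0 M) = 0 ∧ eval x (pderiv (Fin.last _) M) = 0) :
    NoCrit (PI K m - SI K m + (M - TI K m q)) := by
  intro x hx
  have hmid := hmid' x hx
  obtain ⟨hM1, hM2, hM3⟩ := hM x hmid
  have hd : ((m + 2 : ℕ) : K) = 1 := by
    have : ((m + 2 : ℕ) : K) = ((m + 1 : ℕ) : K) + 1 := by push_cast; ring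
    rw [this, hd1, zero_add]
  have hF0 : eval x (PI K m - SI K m + (M - TI K m q)) = 0 := by
    have h1 := congrArg (eval x)
      ((((PI_homogeneous K m).sub (SI_homogeneous K m)).add
        (hMh.sub (TI_homogeneous K m q (by omega)))).sum_X_mul_pderiv)
    rw [map_sum, map_nsmul] at h1
    have h2 : ∑ i, eval x (X i * pderiv i (PI K m - SI K m + (M - TI K m q))) = 0 :=
      sum_eq_zero fun i _ => by rw [map_mul, hx i, mul_zero]
    rw [h2, nsmul_eq_mul, hd, one_mul] at h1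
    exact h1.symm
  have e0 : eval x (Y K (m + 2) 0) = x 0 := eval_Y x 0 (by omega)
  have e1 : eval x (Y K (m + 2) (m + 2)) = x (Fin.last _) := eval_Y x (m + 2) (by omega)
  obtain ⟨k, hk⟩ : ∃ k, m + 1 = q + k := ⟨m + 1 - q, by omega⟩
  have hm2q : m + 2 - q = k + 1 := by omega
  have hm1q : m + 1 - q = k := by omega
  have hkK : ((k + 1 : ℕ) : K) = 1 := by
    have : ((m + 1 : ℕ) : K) = (q : K) + (k : K) := by rw [hk]; push_cast; ring
    rw [hd1, hq0, zero_add] at this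
    push_cast
    rw [← this, zero_add]
  rw [map_add, map_sub, map_sub, eval_PI_zero m x hmid, hM1, zero_sub, zero_sub, TI, map_mul,
    map_pow, map_pow, e0, e1, hm2q] at hF0
  have h0 := hx 0
  rw [map_add, map_sub, map_sub, pderiv_PI_zero, zero_sub, map_add, map_neg, map_sub, hM2,
    zero_sub, pderiv_TI_zero, map_mul, map_mul, map_pow, map_pow, e0, e1, hm2q, hm1q,
    map_natCast, hkK, one_mul] at h0
  have h1 := hx (Fin.last _)
  rw [map_add, map_sub, map_sub, pderiv_PI_last, zero_sub, map_add, map_neg, map_sub, hM3,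
    zero_sub, pderiv_TI_last, map_mul, map_natCast, hq0, zero_mul, neg_zero, add_zero,
    neg_eq_zero] at h1
  obtain ⟨r1, r2, r3⟩ := SI_rel m x
  rw [hd, one_mul] at r2
  rw [hd, one_mul, h1, mul_zero, add_zero] at r3
  have hS : eval x (SI K m) = - (x 0 ^ (k + 1) * x (Fin.last _) ^ q) := by
    linear_combination (-1 : K) * hF0
  have hS0 : eval x (pderiv 0 (SI K m)) = - (x 0 ^ k * x (Fin.last _) ^ q) := by
    linear_combination (-1 : K) * h0
  rw [hS] at r1 r2 r3
  rw [hS0] at r2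
  set a := x 0
  set e := x (Fin.last _)
  -- `a^{k+2} e^q = 0`
  have hprod : a ^ (k + 2) * e ^ q = 0 := by
    linear_combination (-1 : K) * r1 + e * r3
  have hae : a = 0 ∨ e = 0 := by
    rcases mul_eq_zero.1 hprod with h | h
    · exact Or.inl ((pow_eq_zero_iff (by omega)).1 h)
    · exact Or.inr ((pow_eq_zero_iff (by omega)).1 h)
  have hboth : a = 0 ∧ e = 0 := by
    rcases hae with ha | he
    · refine ⟨ha, ?_⟩
      rcases Nat.eq_zero_or_pos k with hk0 | hk0
      · -- `d = q + 1`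
        subst hk0
        have h2' : (2 : K) ≠ 0 := h2.resolve_right (by omega)
        rw [ha, pow_zero, zero_add, pow_one, zero_mul, neg_zero, one_mul, zero_add, zero_sub,
          zero_pow (by omega), zero_mul, zero_sub] at r2
        have h3 : (2 : K) * e ^ (m + 2) = 0 := by
          have h4 : m + 2 = q + 1 := by omega
          rw [h4] at r2 ⊢
          linear_combination r2
        exact (pow_eq_zero_iff (by omega)).1 ((mul_eq_zero.1 h3).resolve_left h2')
      · rw [ha, zero_pow (by omega), zero_pow (by omega), zero_mul, neg_zero, mul_zero, add_zero,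
          zero_pow (by omega), zero_mul, zero_sub] at r2
        exact (pow_eq_zero_iff (n := m + 2) (by omega)).1 (neg_eq_zero.1 r2.symm)
    · refine ⟨?_, he⟩
      rw [he, zero_pow (by omega), mul_zero, neg_zero, neg_zero, zero_pow (by omega), mul_zero,
        sub_zero] at r3
      exact (pow_eq_zero_iff (n := m + 2) (by omega)).1 r3.symm
  exact eq_zero_of_parts m x hmid hboth.1 hboth.2

/-! ### The correction `M = x_q^d`, `p = q` odd -/

lemma pderiv_Yq_mid (R : Type*) [CommRing R] (m q i : ℕ) (hi : i ≤ m) :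
    pderiv ⟨i + 1, by omega⟩ (Y R (m + 2) q ^ (m + 2))
      = if q = i + 1 then ((m + 2 : ℕ) : MvPolynomial (Fin (m + 2 + 1)) R)
          * Y R (m + 2) (i + 1) ^ (m + 1) else 0 := by
  rw [pderiv_pow, pderiv_Y]
  split_ifs with h
  · rw [h, mul_one]; rfl
  · rw [mul_zero]

theorem hasCurve_B1 (m q : ℕ) (hq0 : (q : K) = 0) (hd1 : ((m + 1 : ℕ) : K) = 0) (hq2 : 2 ≤ q)
    (hqm : q ≤ m + 1) (h2 : (2 : K) ≠ 0) :
    HasCurve (m + 2) (PI K m - SI K m + (Y K (m + 2) q ^ (m + 2) - TI K m q)) := by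
  have hd : ((m + 2 : ℕ) : K) = 1 := by
    have : ((m + 2 : ℕ) : K) = ((m + 1 : ℕ) : K) + 1 := by push_cast; ring
    rw [this, hd1, zero_add]
  have hT : aeval (crv K (m + 2)) (TI K m q) = gm K ((m + 2) * (m + 2)) ((m + 2) * q) := by
    rw [TI, aeval_mono]
    obtain ⟨k, hk⟩ : ∃ k, m + 2 = q + k := ⟨m + 2 - q, by omega⟩
    rw [show m + 2 - q = k by omega, hk]
    ring
  refine hasCurveI m _ ?_ (fun i => 1 + (if q = i + 1 then 1 else 0)) (fun i => -((i + 1 : ℕ) : K))
    (fun i => -((m + 1 - i : ℕ) : K) - (if q = i + 1 then 1 else 0)) ?_ ?_ ?_ ?_ ?_ ?_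
  · rw [map_add, map_sub, map_sub, aeval_PI, sub_self, zero_add, hT, aeval_Y_pow _ (by omega),
      mul_comm q, sub_self]
  · intro i _
    show (1 : K) + (if q = i + 1 then 1 else 0) ≠ 0
    split_ifs
    · rw [one_add_one_eq_two]; exact h2
    · rw [add_zero]; exact one_ne_zero
  · simp
  · show -((m + 1 - m : ℕ) : K) - (if q = m + 1 then 1 else 0) ≠ 0
    rw [show m + 1 - m = 1 by omega, Nat.cast_one]
    split_ifs
    · intro h
      apply h2
      linear_combination (-1 : K) * h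
    · rw [sub_zero]; exact neg_ne_zero.2 one_ne_zero
  · intro i hi
    rw [map_add, map_sub, map_sub, pderiv_SI_mid _ _ _ hi, sub_zero, pderiv_TI_mid _ _ _ _ hi,
      sub_zero, map_add, G_PI_mid _ _ hi, pderiv_Yq_mid _ _ _ _ hi, hd]
    split_ifs
    · rw [map_mul, map_natCast, ← C_eq_coe_nat, hd, aeval_Y_pow _ (by omega), C_add, C_1]
      ring
    · rw [map_zero, add_zero, add_zero]
  · have h1 : pderiv 0 (Y K (m + 2) q ^ (m + 2)) = 0 := by
      rw [pderiv_pow, pderiv_Y, if_neg (by simp; omega), mul_zero]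
    have h3 : aeval (crv K (m + 2)) (pderiv 0 (TI K m q))
        = ∑ i ∈ range (m + 1), C (if q = i + 1 then (1 : K) else 0)
          * gm K ((m + 2) * (m + 1)) ((m + 2) * (i + 1)) := by
      obtain ⟨q, rfl⟩ : ∃ q', q = q' + 1 := ⟨q - 1, by omega⟩
      rw [sum_eq_single q]
      · rw [if_pos rfl, C_1, one_mul, pderiv_TI_zero, map_mul, map_natCast,
          aeval_mono _ _ ((m + 2) * (m + 1))]
        · have : ((m + 2 - (q + 1) : ℕ) : K) = 1 := by
            rw [Nat.cast_sub (by omega), hd, hq0, sub_zero]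
          rw [← C_eq_coe_nat, this, C_1, one_mul]
        · obtain ⟨k, hk⟩ : ∃ k, m = q + k := ⟨m - q, by omega⟩
          rw [show m + 1 - (q + 1) = k by omega, hk]
          ring
      · intro j _ hj
        rw [if_neg (by omega), C_0, zero_mul]
      · intro h
        exact absurd (mem_range.2 (by omega)) h
    rw [map_add, map_sub, map_sub, pderiv_PI_zero, zero_sub, h1, zero_sub, map_add, map_neg,
      map_neg, h3, G_SI_zero, ← sum_neg_distrib, ← sum_neg_distrib, ← sum_add_distrib]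
    refine sum_congr rfl fun i _ => ?_
    rw [C_sub, C_neg]
    ring
  · have h1 : pderiv (Fin.last (m + 2)) (Y K (m + 2) q ^ (m + 2)) = 0 := by
      rw [pderiv_pow, pderiv_Y, if_neg (by simp; omega), mul_zero]
    have h3 : pderiv (Fin.last (m + 2)) (TI K m q) = 0 := by
      rw [pderiv_TI_last, ← C_eq_coe_nat, hq0, C_0, zero_mul]
    rw [map_add, map_sub, map_sub, pderiv_PI_last, zero_sub, h1, h3, sub_zero, add_zero, map_neg,
      G_SI_last, ← sum_neg_distrib]
    exact sum_congr rfl fun i _ => by rw [C_neg, neg_mul]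

theorem noCrit_B1 (m q : ℕ) (hq0 : (q : K) = 0) (hd1 : ((m + 1 : ℕ) : K) = 0) (hq2 : 2 ≤ q)
    (hqm : q ≤ m + 1) (h2 : (2 : K) ≠ 0) :
    NoCrit (PI K m - SI K m + (Y K (m + 2) q ^ (m + 2) - TI K m q)) := by
  have hd : ((m + 2 : ℕ) : K) = 1 := by
    have : ((m + 2 : ℕ) : K) = ((m + 1 : ℕ) : K) + 1 := by push_cast; ring
    rw [this, hd1, zero_add]
  refine noCrit_B m q hq0 hd1 hq2 hqm (Or.inl h2) _ (Y_pow_homogeneous _ _ _) ?_ ?_
  · intro x hx i hi
    have h := hx ⟨i + 1, by omega⟩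
    rw [map_add, map_sub, map_sub, pderiv_SI_mid _ _ _ hi, sub_zero, pderiv_TI_mid _ _ _ _ hi,
      sub_zero, pderiv_PI_mid _ _ _ hi, pderiv_Yq_mid _ _ _ _ hi] at h
    have e : eval x (Y K (m + 2) (i + 1)) = x ⟨i + 1, by omega⟩ := eval_Y x _ (by omega)
    split_ifs at h
    · rw [map_add, map_mul, map_natCast, hd, one_mul, map_pow, e, ← two_mul] at h
      exact (pow_eq_zero_iff (by omega)).1 ((mul_eq_zero.1 h).resolve_left h2)
    · rw [add_zero, map_mul, map_natCast, hd, one_mul, map_pow, e] at h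
      exact (pow_eq_zero_iff (by omega)).1 h
  · intro x hx
    refine ⟨?_, ?_, ?_⟩
    · obtain ⟨q, rfl⟩ : ∃ q', q = q' + 1 := ⟨q - 1, by omega⟩
      rw [map_pow, eval_Y x (q + 1) (by omega), hx q (by omega), zero_pow (by omega)]
    · rw [pderiv_pow, pderiv_Y, if_neg (by simp; omega), mul_zero, map_zero]
    · rw [pderiv_pow, pderiv_Y, if_neg (by simp; omega), mul_zero, map_zero]

/-! ### The correction `M = x_1^2 x_{d-1}^2 x_0^{d-4}`, `p = q = 2` -/

lemma two_eq_zero_poly {σ : Type*} (h2 : (2 : K) = 0) : (2 : MvPolynomial σ K) = 0 := by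
  have h : (C (2 : K) : MvPolynomial σ K) = 0 := by rw [h2, C_0]
  rw [← h, map_ofNat]

lemma pderiv_UI_mid (m i : ℕ) (h2 : (2 : K) = 0) :
    ∀ hi : i ≤ m, pderiv ⟨i + 1, by omega⟩ (UI K m) = 0 := by
  intro hi
  rw [UI, pderiv_mul, pderiv_mul, pderiv_pow, pderiv_pow, pderiv_pow, pderiv_Y, pderiv_Y,
    pderiv_Y, if_neg (show ¬ (0 = ((⟨i + 1, by omega⟩ : Fin (m + 2 + 1)) : ℕ)) by simp),
    Nat.cast_ofNat, two_eq_zero_poly h2]
  ring

lemma pderiv_UI_zero (m : ℕ) (hm : 3 ≤ m) :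
    pderiv 0 (UI K m) = ((m - 2 : ℕ) : MvPolynomial (Fin (m + 2 + 1)) K)
      * (Y K (m + 2) 1 ^ 2 * Y K (m + 2) (m + 1) ^ 2 * Y K (m + 2) 0 ^ (m - 3)) := by
  rw [UI, pderiv_mul, pderiv_mul, pderiv_pow, pderiv_pow, pderiv_pow, pderiv_Y, pderiv_Y,
    pderiv_Y, if_neg (by simp), if_neg (by simp), if_pos (by simp),
    show m - 2 - 1 = m - 3 by omega]
  ring

lemma pderiv_UI_last (m : ℕ) : pderiv (Fin.last _) (UI K m) = 0 := by
  rw [UI, pderiv_mul, pderiv_mul, pderiv_pow, pderiv_pow, pderiv_pow, pderiv_Y, pderiv_Y,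
    pderiv_Y, if_neg (by simp), if_neg (by simp), if_neg (by simp)]
  ring

lemma aeval_UImono (m c N : ℕ) (hN : (m + 2) * (c + 4) = N) :
    aeval (crv K (m + 2)) (Y K (m + 2) 1 ^ 2 * Y K (m + 2) (m + 1) ^ 2 * Y K (m + 2) 0 ^ c)
      = gm K N ((m + 2) * 2) := by
  rw [map_mul, map_mul, map_pow, map_pow, map_pow, aeval_Y _ (by omega), aeval_Y _ (by omega),
    aeval_Y _ (by omega), Nat.sub_zero, pow_zero, mul_one, pow_one,
    show m + 2 - 1 = m + 1 by omega, show m + 2 - (m + 1) = 1 by omega, pow_one,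
    ← gm_eq (A := (m + 2) * c + (m + 2) * 2) (B := (m + 2) * 2) (by rw [← hN]; ring)]
  ring

theorem hasCurve_B2 (m : ℕ) (hm : 3 ≤ m) (hd1 : ((m + 1 : ℕ) : K) = 0) (h2 : (2 : K) = 0) :
    HasCurve (m + 2) (PI K m - SI K m + (UI K m - TI K m 2)) := by
  have hd : ((m + 2 : ℕ) : K) = 1 := by
    have : ((m + 2 : ℕ) : K) = ((m + 1 : ℕ) : K) + 1 := by push_cast; ring
    rw [this, hd1, zero_add]
  have hT : aeval (crv K (m + 2)) (TI K m 2) = gm K ((m + 2) * (m + 2)) ((m + 2) * 2) := by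
    rw [TI, aeval_mono]
    rw [show m + 2 - 2 = m by omega]
    ring
  have hU : aeval (crv K (m + 2)) (UI K m) = gm K ((m + 2) * (m + 2)) ((m + 2) * 2) := by
    rw [UI, aeval_UImono]
    rw [show m - 2 + 4 = m + 2 by omega]
  refine hasCurveI m _ ?_ (fun i => 1) (fun i => -((i + 1 : ℕ) : K))
    (fun i => -((m + 1 - i : ℕ) : K)) (fun _ _ => one_ne_zero) ?_ ?_ ?_ ?_ ?_
  · rw [map_add, map_sub, map_sub, aeval_PI, sub_self, zero_add, hT, hU, sub_self]
  · simp
  · simp
  · intro i hi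
    rw [map_add, map_sub, map_sub, pderiv_SI_mid _ _ _ hi, sub_zero, pderiv_TI_mid _ _ _ _ hi,
      sub_zero, pderiv_UI_mid _ _ h2 hi, add_zero, G_PI_mid _ _ hi, hd]
  · have h3 : aeval (crv K (m + 2)) (pderiv 0 (UI K m)) = aeval (crv K (m + 2)) (pderiv 0 (TI K m 2)) := by
      have h4 : ((m + 2 - 2 : ℕ) : MvPolynomial (Fin 2) K)
          = ((m - 2 : ℕ) : MvPolynomial (Fin 2) K) + 2 := by
        rw [show m + 2 - 2 = (m - 2) + 2 by omega]
        push_cast
        rfl
      have h5 := aeval_UImono (K := K) m (m - 3) ((m + 2) * (m + 1))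
        (by rw [show m - 3 + 4 = m + 1 by omega])
      have h6 := aeval_mono (K := K) (m := m) (m + 1 - 2) 2 ((m + 2) * (m + 1))
        (by rw [show m + 1 - 2 = m - 1 by omega, ← mul_add, show m - 1 + 2 = m + 1 by omega])
      rw [pderiv_UI_zero m hm, pderiv_TI_zero, map_mul, h5, map_mul, h6, map_natCast, map_natCast,
        h4, two_eq_zero_poly h2, add_zero]
    rw [map_add, map_sub, map_sub, pderiv_PI_zero, zero_sub, map_add, map_neg, map_sub, h3,
      sub_self, add_zero, G_SI_zero, ← sum_neg_distrib]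
    exact sum_congr rfl fun i _ => by rw [C_neg, neg_mul]
  · have h3 : pderiv (Fin.last (m + 2)) (TI K m 2) = 0 := by
      rw [pderiv_TI_last, Nat.cast_ofNat, two_eq_zero_poly h2, zero_mul]
    rw [map_add, map_sub, map_sub, pderiv_PI_last, zero_sub, pderiv_UI_last, h3, sub_zero,
      add_zero, map_neg, G_SI_last, ← sum_neg_distrib]
    exact sum_congr rfl fun i _ => by rw [C_neg, neg_mul]

theorem noCrit_B2 (m : ℕ) (hm : 3 ≤ m) (hd1 : ((m + 1 : ℕ) : K) = 0) (h2 : (2 : K) = 0) :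
    NoCrit (PI K m - SI K m + (UI K m - TI K m 2)) := by
  have hd : ((m + 2 : ℕ) : K) = 1 := by
    have : ((m + 2 : ℕ) : K) = ((m + 1 : ℕ) : K) + 1 := by push_cast; ring
    rw [this, hd1, zero_add]
  refine noCrit_B m 2 (by rw [Nat.cast_ofNat, h2]) hd1 le_rfl (by omega) (Or.inr (by omega)) _
    (UI_homogeneous _ _ (by omega)) ?_ ?_
  · intro x hx i hi
    have h := hx ⟨i + 1, by omega⟩
    rw [map_add, map_sub, map_sub, pderiv_SI_mid _ _ _ hi, sub_zero, pderiv_TI_mid _ _ _ _ hi,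
      sub_zero, pderiv_PI_mid _ _ _ hi, pderiv_UI_mid _ _ h2 hi] at h
    have e : eval x (Y K (m + 2) (i + 1)) = x ⟨i + 1, by omega⟩ := eval_Y x _ (by omega)
    rw [add_zero, map_mul, map_natCast, hd, one_mul, map_pow, e] at h
    exact (pow_eq_zero_iff (by omega)).1 h
  · intro x hx
    have e1 : eval x (Y K (m + 2) 1) = 0 := by
      rw [eval_Y x 1 (by omega)]; exact hx 0 (by omega)
    refine ⟨?_, ?_, ?_⟩
    · rw [UI, map_mul, map_mul, map_pow, e1, zero_pow (by omega), zero_mul, zero_mul]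
    · rw [pderiv_UI_zero m hm, map_mul, map_mul, map_mul, map_pow, e1, zero_pow (by omega),
        zero_mul, zero_mul, mul_zero]
    · rw [pderiv_UI_last, map_zero]

end Pool.Agent.W_MP_fe9afc_ag
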