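import Pool.Agent.W_MP_fe9afc_ag.Base

/-!
# Family II: `p ∣ d`, `d = m + 3`
-/

namespace Pool.Agent.W_MP_fe9afc_ag

open MvPolynomial Finset

/-- `∑_{0<i<d-1} x_i^{d-1} x_{i+1}`. -/
noncomputable def CH (R : Type*) [CommRing R] (m : ℕ) : MvPolynomial (Fin (m + 3 + 1)) R :=
  ∑ i ∈ range (m + 1), Y R (m + 3) (i + 1) ^ (m + 2) * Y R (m + 3) (i + 2)

/-- `∑_{0<i<d-1} x_0^{d-1-i} x_d^i`. -/
noncomputable def PH (R : Type*) [CommRing R] (m : ℕ) : MvPolynomial (Fin (m + 3 + 1)) R :=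
  ∑ i ∈ range (m + 1), Y R (m + 3) 0 ^ (m + 1 - i) * Y R (m + 3) (m + 3) ^ (i + 1)

/-- `(x_1^d - x_0^{d-1} x_d) - (x_{d-1}^d - x_0 x_d^{d-1})`. -/
noncomputable def BI (R : Type*) [CommRing R] (m : ℕ) : MvPolynomial (Fin (m + 3 + 1)) R :=
  (Y R (m + 3) 1 ^ (m + 3) - Y R (m + 3) 0 ^ (m + 2) * Y R (m + 3) (m + 3))
    - (Y R (m + 3) (m + 2) ^ (m + 3) - Y R (m + 3) 0 * Y R (m + 3) (m + 3) ^ (m + 2))

/-- `x_0^{d-3} x_d^2 x_1 + x_0^{d-4} x_d x_1 x_q^2`. -/
noncomputable def VI (R : Type*) [CommRing R] (m q : ℕ) : MvPolynomial (Fin (m + 3 + 1)) R :=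
  Y R (m + 3) 0 ^ m * Y R (m + 3) (m + 3) ^ 2 * Y R (m + 3) 1
    + Y R (m + 3) 0 ^ (m - 1) * Y R (m + 3) (m + 3) * Y R (m + 3) 1 * Y R (m + 3) q ^ 2

/-- The form of family II (`p` odd). -/
noncomputable def FII (R : Type*) [CommRing R] (m : ℕ) : MvPolynomial (Fin (m + 3 + 1)) R :=
  CH R m - Y R (m + 3) 1 * PH R m + BI R m

lemma FII_homogeneous (R : Type*) [CommRing R] (m : ℕ) : (FII R m).IsHomogeneous (m + 3) := by
  refine IsHomogeneous.add (IsHomogeneous.sub ?_ ?_) (IsHomogeneous.sub ?_ ?_)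
  · exact IsHomogeneous.sum _ _ _ fun i _ =>
      (Y_pow_homogeneous (m + 3) (i + 1) (m + 2)).mul (Y_homogeneous (m + 3) (i + 2))
  · have hPH : (PH R m).IsHomogeneous (m + 2) := by
      refine IsHomogeneous.sum _ _ _ fun i hi => ?_
      have := mem_range.1 hi
      have h := (Y_pow_homogeneous (R := R) (m + 3) 0 (m + 1 - i)).mul
        (Y_pow_homogeneous (R := R) (m + 3) (m + 3) (i + 1))
      rwa [show m + 1 - i + (i + 1) = m + 2 by omega] at h
    have h := (Y_homogeneous (R := R) (m + 3) 1).mul hPH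
    rwa [show 1 + (m + 2) = m + 3 by omega] at h
  · exact (Y_pow_homogeneous _ _ _).sub ((Y_pow_homogeneous _ _ (m + 2)).mul (Y_homogeneous _ _))
  · refine (Y_pow_homogeneous _ _ _).sub ?_
    have := (Y_homogeneous (R := R) (m + 3) 0).mul (Y_pow_homogeneous (R := R) (m + 3) (m + 3) (m + 2))
    rwa [show 1 + (m + 2) = m + 3 by omega] at this

lemma VI_homogeneous (R : Type*) [CommRing R] (m q : ℕ) (hm : 1 ≤ m) :
    (VI R m q).IsHomogeneous (m + 3) := by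
  refine IsHomogeneous.add ?_ ?_
  · exact ((Y_pow_homogeneous _ _ m).mul (Y_pow_homogeneous _ _ 2)).mul (Y_homogeneous _ _)
  · have := (((Y_pow_homogeneous (R := R) (m + 3) 0 (m - 1)).mul
      (Y_homogeneous (m + 3) (m + 3))).mul (Y_homogeneous (m + 3) 1)).mul
      (Y_pow_homogeneous (m + 3) q 2)
    rwa [show m - 1 + 1 + 1 + 2 = m + 3 by omega] at this

lemma map_FII {R S : Type*} [CommRing R] [CommRing S] (φ : R →+* S) (m : ℕ) :
    map φ (FII R m) = FII S m := by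
  simp [FII, CH, PH, BI, map_Y]

lemma map_VI {R S : Type*} [CommRing R] [CommRing S] (φ : R →+* S) (m q : ℕ) :
    map φ (VI R m q) = VI S m q := by
  simp [VI, map_Y]

/-! ### Partial derivatives -/

lemma pderiv_Y_pow {R : Type*} [CommRing R] {n : ℕ} (j : Fin (n + 1)) (i k : ℕ) :
    pderiv j (Y R n i ^ k)
      = if i = (j : ℕ) then (k : MvPolynomial (Fin (n + 1)) R) * Y R n i ^ (k - 1) else 0 := by
  rw [pderiv_pow, pderiv_Y]
  split_ifs <;> simp

lemma pderiv_CH_zero (R : Type*) [CommRing R] (m : ℕ) : pderiv 0 (CH R m) = 0 := by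
  rw [CH, map_sum]
  refine sum_eq_zero fun i _ => ?_
  rw [pderiv_mul, pderiv_Y_pow, pderiv_Y, if_neg (by simp), if_neg (by simp)]
  ring

lemma pderiv_CH_one (R : Type*) [CommRing R] (m : ℕ) : pderiv ⟨1, by omega⟩ (CH R m)
    = ((m + 2 : ℕ) : MvPolynomial (Fin (m + 3 + 1)) R)
      * (Y R (m + 3) 1 ^ (m + 1) * Y R (m + 3) 2) := by
  rw [CH, map_sum, sum_eq_single 0]
  · rw [pderiv_mul, pderiv_Y_pow, pderiv_Y, if_pos (by simp), if_neg (by simp),
      show m + 2 - 1 = m + 1 by omega]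
    ring
  · intro i _ hi
    rw [pderiv_mul, pderiv_Y_pow, pderiv_Y, if_neg (by simpa using hi), if_neg (by simp)]
    ring
  · intro h
    exact absurd (mem_range.2 (by omega)) h

lemma pderiv_CH_mid (R : Type*) [CommRing R] (m j : ℕ) (hj : j < m) :
    pderiv ⟨j + 2, by omega⟩ (CH R m)
    = Y R (m + 3) (j + 1) ^ (m + 2) + ((m + 2 : ℕ) : MvPolynomial (Fin (m + 3 + 1)) R)
      * (Y R (m + 3) (j + 2) ^ (m + 1) * Y R (m + 3) (j + 3)) := by
  have h : ∀ i, pderiv (⟨j + 2, by omega⟩ : Fin (m + 3 + 1))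
      (Y R (m + 3) (i + 1) ^ (m + 2) * Y R (m + 3) (i + 2))
      = (if i = j then Y R (m + 3) (j + 1) ^ (m + 2) else 0)
        + (if i = j + 1 then ((m + 2 : ℕ) : MvPolynomial (Fin (m + 3 + 1)) R)
      * (Y R (m + 3) (j + 2) ^ (m + 1) * Y R (m + 3) (j + 3)) else 0) := by
    intro i
    rw [pderiv_mul, pderiv_Y_pow, pderiv_Y]
    by_cases h1 : i = j
    · subst h1
      rw [if_neg (by simp), if_pos (by simp), if_pos rfl, if_neg (by omega)]
      ring
    · by_cases h2 : i = j + 1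
      · subst h2
        rw [if_pos (by simp), if_neg (by simp), if_neg (by omega), if_pos rfl,
          show m + 2 - 1 = m + 1 by omega]
        ring
      · rw [if_neg (by simp; omega), if_neg (by simpa using h1), if_neg h1, if_neg h2]
        ring
  rw [CH, map_sum, sum_congr rfl fun i _ => h i, sum_add_distrib, sum_ite_eq', sum_ite_eq',
    if_pos (mem_range.2 (by omega)), if_pos (mem_range.2 (by omega))]

lemma pderiv_CH_pen (R : Type*) [CommRing R] (m : ℕ) :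
    pderiv ⟨m + 2, by omega⟩ (CH R m) = Y R (m + 3) (m + 1) ^ (m + 2) := by
  rw [CH, map_sum, sum_eq_single m]
  · rw [pderiv_mul, pderiv_Y_pow, pderiv_Y, if_neg (by simp), if_pos (by simp)]
    ring
  · intro i hi hi2
    have := mem_range.1 hi
    rw [pderiv_mul, pderiv_Y_pow, pderiv_Y, if_neg (by simp; omega), if_neg (by simpa using hi2)]
    ring
  · intro h
    exact absurd (mem_range.2 (by omega)) h

lemma pderiv_CH_last (R : Type*) [CommRing R] (m : ℕ) :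
    pderiv (Fin.last (m + 3)) (CH R m) = 0 := by
  rw [CH, map_sum]
  refine sum_eq_zero fun i hi => ?_
  have := mem_range.1 hi
  rw [pderiv_mul, pderiv_Y_pow, pderiv_Y, if_neg (by simp; omega), if_neg (by simp; omega)]
  ring

lemma pderiv_PH_zero (R : Type*) [CommRing R] (m : ℕ) :
    pderiv 0 (PH R m) = ∑ i ∈ range (m + 1), ((m + 1 - i : ℕ) : MvPolynomial (Fin (m + 3 + 1)) R)
      * (Y R (m + 3) 0 ^ (m - i) * Y R (m + 3) (m + 3) ^ (i + 1)) := by
  rw [PH, map_sum]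
  refine sum_congr rfl fun i _ => ?_
  rw [pderiv_mul, pderiv_Y_pow, pderiv_Y_pow, if_pos (by simp),
    if_neg (by simp), show m + 1 - i - 1 = m - i by omega]
  ring

lemma pderiv_PH_mid (R : Type*) [CommRing R] (m i : ℕ) (hi : i ≤ m + 1) :
    pderiv ⟨i + 1, by omega⟩ (PH R m) = 0 := by
  rw [PH, map_sum]
  refine sum_eq_zero fun j _ => ?_
  rw [pderiv_mul, pderiv_Y_pow, pderiv_Y_pow, if_neg (by simp), if_neg (by simp; omega)]
  ring

lemma pderiv_PH_last (R : Type*) [CommRing R] (m : ℕ) :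
    pderiv (Fin.last (m + 3)) (PH R m)
      = ∑ i ∈ range (m + 1), ((i + 1 : ℕ) : MvPolynomial (Fin (m + 3 + 1)) R)
      * (Y R (m + 3) 0 ^ (m + 1 - i) * Y R (m + 3) (m + 3) ^ i) := by
  rw [PH, map_sum]
  refine sum_congr rfl fun i _ => ?_
  rw [pderiv_mul, pderiv_Y_pow, pderiv_Y_pow, if_neg (by simp),
    if_pos (by simp), show i + 1 - 1 = i by omega]
  ring

lemma pderiv_BI_zero (R : Type*) [CommRing R] (m : ℕ) :
    pderiv 0 (BI R m) = -(((m + 2 : ℕ) : MvPolynomial (Fin (m + 3 + 1)) R)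
        * (Y R (m + 3) 0 ^ (m + 1) * Y R (m + 3) (m + 3)))
      + Y R (m + 3) (m + 3) ^ (m + 2) := by
  rw [BI, map_sub, map_sub, map_sub, pderiv_mul, pderiv_mul, pderiv_Y_pow, pderiv_Y_pow,
    pderiv_Y_pow, pderiv_Y_pow, pderiv_Y, pderiv_Y, if_neg (by simp), if_pos (by simp),
    if_neg (by simp), if_neg (by simp), if_pos (by simp), if_neg (by simp),
    show m + 2 - 1 = m + 1 by omega]
  ring

lemma pderiv_BI_one (R : Type*) [CommRing R] (m : ℕ) :
    pderiv ⟨1, by omega⟩ (BI R m) = ((m + 3 : ℕ) : MvPolynomial (Fin (m + 3 + 1)) R)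
        * Y R (m + 3) 1 ^ (m + 2) := by
  rw [BI, map_sub, map_sub, map_sub, pderiv_mul, pderiv_mul, pderiv_Y_pow, pderiv_Y_pow,
    pderiv_Y_pow, pderiv_Y_pow, pderiv_Y, pderiv_Y, if_pos (by simp), if_neg (by simp),
    if_neg (by simp), if_neg (by simp), if_neg (by simp), if_neg (by simp),
    show m + 3 - 1 = m + 2 by omega]
  ring

lemma pderiv_BI_mid (R : Type*) [CommRing R] (m j : ℕ) (hj : j < m) :
    pderiv ⟨j + 2, by omega⟩ (BI R m) = 0 := by
  rw [BI, map_sub, map_sub, map_sub, pderiv_mul, pderiv_mul, pderiv_Y_pow, pderiv_Y_pow,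
    pderiv_Y_pow, pderiv_Y_pow, pderiv_Y, pderiv_Y, if_neg (by simp), if_neg (by simp),
    if_neg (by simp; omega), if_neg (by simp; omega), if_neg (by simp), if_neg (by simp; omega)]
  ring

lemma pderiv_BI_pen (R : Type*) [CommRing R] (m : ℕ) :
    pderiv ⟨m + 2, by omega⟩ (BI R m) = -(((m + 3 : ℕ) : MvPolynomial (Fin (m + 3 + 1)) R)
        * Y R (m + 3) (m + 2) ^ (m + 2)) := by
  rw [BI, map_sub, map_sub, map_sub, pderiv_mul, pderiv_mul, pderiv_Y_pow, pderiv_Y_pow,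
    pderiv_Y_pow, pderiv_Y_pow, pderiv_Y, pderiv_Y, if_neg (by simp), if_neg (by simp),
    if_neg (by simp), if_pos (by simp), if_neg (by simp), if_neg (by simp),
    show m + 3 - 1 = m + 2 by omega]
  ring

lemma pderiv_BI_last (R : Type*) [CommRing R] (m : ℕ) :
    pderiv (Fin.last (m + 3)) (BI R m) = -Y R (m + 3) 0 ^ (m + 2)
      + ((m + 2 : ℕ) : MvPolynomial (Fin (m + 3 + 1)) R)
        * (Y R (m + 3) 0 * Y R (m + 3) (m + 3) ^ (m + 1)) := by
  rw [BI, map_sub, map_sub, map_sub, pderiv_mul, pderiv_mul, pderiv_Y_pow, pderiv_Y_pow,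
    pderiv_Y_pow, pderiv_Y_pow, pderiv_Y, pderiv_Y, if_neg (by simp), if_neg (by simp),
    if_pos (by simp), if_neg (by simp), if_neg (by simp), if_pos (by simp),
    show m + 2 - 1 = m + 1 by omega]
  ring

/-! ### The partial derivatives of `F` -/

variable {K : Type*} [Field K]

lemma cast_d2 {m : ℕ} (hd : ((m + 3 : ℕ) : K) = 0) {σ : Type*} :
    ((m + 2 : ℕ) : MvPolynomial σ K) = -1 := by
  have h : ((m + 2 : ℕ) : K) = -1 := by
    have : ((m + 3 : ℕ) : K) = ((m + 2 : ℕ) : K) + 1 := by push_cast; ring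
    rw [hd] at this
    linear_combination -this
  rw [← C_eq_coe_nat, h, C_neg, C_1]

lemma cast_d3 {m : ℕ} (hd : ((m + 3 : ℕ) : K) = 0) {σ : Type*} :
    ((m + 3 : ℕ) : MvPolynomial σ K) = 0 := by
  rw [← C_eq_coe_nat, hd, C_0]

lemma pd_FII_zero (m : ℕ) (hd : ((m + 3 : ℕ) : K) = 0) : pderiv 0 (FII K m)
    = -(Y K (m + 3) 1 * pderiv 0 (PH K m)) + Y K (m + 3) 0 ^ (m + 1) * Y K (m + 3) (m + 3)
      + Y K (m + 3) (m + 3) ^ (m + 2) := by
  rw [FII, map_add, map_sub, pderiv_CH_zero, pderiv_mul, pderiv_Y, if_neg (by simp),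
    pderiv_BI_zero, cast_d2 hd]
  ring

lemma pd_FII_one (m : ℕ) (hd : ((m + 3 : ℕ) : K) = 0) : pderiv ⟨1, by omega⟩ (FII K m)
    = -(Y K (m + 3) 1 ^ (m + 1) * Y K (m + 3) 2) - PH K m := by
  have h := pderiv_PH_mid K m 0 (by omega)
  rw [FII, map_add, map_sub, pderiv_CH_one, pderiv_mul, pderiv_Y, if_pos (by simp),
    pderiv_BI_one, cast_d2 hd, cast_d3 hd]
  simp only [zero_add] at h
  rw [h]
  ring

lemma pd_FII_mid (m : ℕ) (hd : ((m + 3 : ℕ) : K) = 0) (j : ℕ) (hj : j < m) :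
    pderiv ⟨j + 2, by omega⟩ (FII K m)
    = Y K (m + 3) (j + 1) ^ (m + 2) - Y K (m + 3) (j + 2) ^ (m + 1) * Y K (m + 3) (j + 3) := by
  have h := pderiv_PH_mid K m (j + 1) (by omega)
  rw [FII, map_add, map_sub, pderiv_CH_mid _ _ _ hj, pderiv_mul, pderiv_Y, if_neg (by simp),
    pderiv_BI_mid _ _ _ hj, cast_d2 hd, h]
  ring

lemma pd_FII_pen (m : ℕ) (hd : ((m + 3 : ℕ) : K) = 0) :
    pderiv ⟨m + 2, by omega⟩ (FII K m) = Y K (m + 3) (m + 1) ^ (m + 2) := by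
  have h := pderiv_PH_mid K m (m + 1) (by omega)
  rw [FII, map_add, map_sub, pderiv_CH_pen, pderiv_mul, pderiv_Y, if_neg (by simp),
    pderiv_BI_pen, cast_d3 hd, h]
  ring

lemma pd_FII_last (m : ℕ) (hd : ((m + 3 : ℕ) : K) = 0) : pderiv (Fin.last (m + 3)) (FII K m)
    = -(Y K (m + 3) 1 * pderiv (Fin.last (m + 3)) (PH K m)) - Y K (m + 3) 0 ^ (m + 2)
      - Y K (m + 3) 0 * Y K (m + 3) (m + 3) ^ (m + 1) := by
  rw [FII, map_add, map_sub, pderiv_CH_last, pderiv_mul, pderiv_Y, if_neg (by simp),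
    pderiv_BI_last, cast_d2 hd]
  ring

/-! ### The partial derivatives of the correction, `p = 2` -/

lemma two_eq_zero_poly' {σ : Type*} (h2 : (2 : K) = 0) : (2 : MvPolynomial σ K) = 0 := by
  have h : (C (2 : K) : MvPolynomial σ K) = 0 := by rw [h2, C_0]
  rw [← h, map_ofNat]

lemma pd_VI_zero (m q : ℕ) (hq : 2 * q = m + 3) : pderiv 0 (VI K m q)
    = (m : MvPolynomial (Fin (m + 3 + 1)) K)
        * (Y K (m + 3) 0 ^ (m - 1) * Y K (m + 3) (m + 3) ^ 2 * Y K (m + 3) 1)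
      + ((m - 1 : ℕ) : MvPolynomial (Fin (m + 3 + 1)) K) * (Y K (m + 3) 0 ^ (m - 2)
        * Y K (m + 3) (m + 3) * Y K (m + 3) 1 * Y K (m + 3) q ^ 2) := by
  rw [VI, map_add, pderiv_mul, pderiv_mul, pderiv_mul, pderiv_mul, pderiv_mul, pderiv_Y_pow,
    pderiv_Y_pow, pderiv_Y_pow, pderiv_Y_pow, pderiv_Y, pderiv_Y, if_pos (by simp),
    if_neg (by simp), if_neg (by simp), if_pos (by simp), if_neg (by simp),
    if_neg (by simp; omega), show m - 1 - 1 = m - 2 by omega]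
  ring

lemma pd_VI_one (m q : ℕ) (hq : 2 * q = m + 3) : pderiv ⟨1, by omega⟩ (VI K m q)
    = Y K (m + 3) 0 ^ m * Y K (m + 3) (m + 3) ^ 2
      + Y K (m + 3) 0 ^ (m - 1) * Y K (m + 3) (m + 3) * Y K (m + 3) q ^ 2 := by
  rw [VI, map_add, pderiv_mul, pderiv_mul, pderiv_mul, pderiv_mul, pderiv_mul, pderiv_Y_pow,
    pderiv_Y_pow, pderiv_Y_pow, pderiv_Y_pow, pderiv_Y, pderiv_Y, if_neg (by simp),
    if_neg (by simp), if_pos (by simp), if_neg (by simp), if_neg (by simp),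
    if_neg (by simp; omega)]
  ring

lemma pd_VI_mid (m q : ℕ) (h2 : (2 : K) = 0) (j : ℕ) (hj : j ≤ m) :
    pderiv ⟨j + 2, by omega⟩ (VI K m q) = 0 := by
  rw [VI, map_add, pderiv_mul, pderiv_mul, pderiv_mul, pderiv_mul, pderiv_mul, pderiv_Y_pow,
    pderiv_Y_pow, pderiv_Y_pow, pderiv_Y_pow, pderiv_Y, pderiv_Y, if_neg (by simp),
    if_neg (by simp; omega), if_neg (by simp), if_neg (by simp), if_neg (by simp; omega),
    Nat.cast_ofNat, two_eq_zero_poly' h2]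
  simp

lemma pd_VI_last (m q : ℕ) (h2 : (2 : K) = 0) (hq : 2 * q = m + 3) :
    pderiv (Fin.last (m + 3)) (VI K m q)
    = Y K (m + 3) 0 ^ (m - 1) * Y K (m + 3) 1 * Y K (m + 3) q ^ 2 := by
  rw [VI, map_add, pderiv_mul, pderiv_mul, pderiv_mul, pderiv_mul, pderiv_mul, pderiv_Y_pow,
    pderiv_Y_pow, pderiv_Y_pow, pderiv_Y_pow, pderiv_Y, pderiv_Y, if_neg (by simp),
    if_pos (by simp), if_neg (by simp), if_neg (by simp), if_pos (by simp),
    if_neg (by simp; omega), Nat.cast_ofNat, two_eq_zero_poly' h2]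
  ring

end Pool.Agent.W_MP_fe9afc_ag
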