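import Pool.Agent.W_MP_fe9afc_ag.FamII

/-!
# Family II: the results
-/

namespace Pool.Agent.W_MP_fe9afc_ag

open MvPolynomial Finset

variable {K : Type*} [Field K]

/-! ### On the curve -/

lemma aeval_Y3 {m : ℕ} (i : ℕ) (hi : i ≤ m + 3) :
    aeval (crv K (m + 3)) (Y K (m + 3) i) = X 0 ^ (m + 3 - i) * X 1 ^ i :=
  aeval_Y i (by omega)

lemma aeval_pow3 {m : ℕ} (i : ℕ) (hi : i ≤ m + 3) (k N : ℕ) (hN : (m + 3) * k = N) :
    aeval (crv K (m + 3)) (Y K (m + 3) i ^ k) = gm K N (i * k) := by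
  rw [map_pow, aeval_Y3 i hi, mul_pow, ← pow_mul, ← pow_mul, gm_eq]
  obtain ⟨j, hj⟩ : ∃ j, m + 3 = i + j := ⟨m + 3 - i, by omega⟩
  rw [← hN, hj, show i + j - i = j by omega]
  ring

lemma gm_mul {N M k l : ℕ} (hk : k ≤ N) (hl : l ≤ M) :
    gm K N k * gm K M l = gm K (N + M) (k + l) := by
  rw [mul_comm, mul_gm hk hl, add_comm M N]

lemma aeval_ae {m : ℕ} (a b N : ℕ) (hN : (m + 3) * (a + b) = N) :
    aeval (crv K (m + 3)) (Y K (m + 3) 0 ^ a * Y K (m + 3) (m + 3) ^ b)
      = gm K N ((m + 3) * b) := by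
  rw [map_mul, aeval_pow3 0 (by omega) a _ rfl, aeval_pow3 (m + 3) le_rfl b _ rfl,
    gm_mul (by nlinarith) le_rfl, ← hN, zero_mul, zero_add, mul_add]

lemma aeval_one {m : ℕ} (i : ℕ) (hi : i ≤ m + 3) :
    aeval (crv K (m + 3)) (Y K (m + 3) i) = gm K (m + 3) i := by
  rw [aeval_Y3 i hi, gm]

lemma aeval_CH (m : ℕ) : aeval (crv K (m + 3)) (CH K m)
    = ∑ i ∈ range (m + 1), gm K ((m + 3) * (m + 3)) ((m + 3) * (i + 1) + 1) := by
  rw [CH, map_sum]
  refine sum_congr rfl fun i hi => ?_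
  have := mem_range.1 hi
  rw [map_mul, aeval_pow3 _ (by omega) _ _ rfl, aeval_one _ (by omega),
    gm_mul (by nlinarith) (by omega)]
  congr 1
  ring

lemma aeval_PH (m : ℕ) : aeval (crv K (m + 3)) (PH K m)
    = ∑ i ∈ range (m + 1), gm K ((m + 3) * (m + 2)) ((m + 3) * (i + 1)) := by
  rw [PH, map_sum]
  refine sum_congr rfl fun i hi => ?_
  have := mem_range.1 hi
  rw [aeval_ae _ _ ((m + 3) * (m + 2)) (by rw [show m + 1 - i + (i + 1) = m + 2 by omega])]

lemma aeval_FII (m : ℕ) : aeval (crv K (m + 3)) (FII K m) = 0 := by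
  have h1 : aeval (crv K (m + 3)) (Y K (m + 3) 1 * PH K m) = aeval (crv K (m + 3)) (CH K m) := by
    rw [map_mul, aeval_PH, aeval_CH, mul_sum]
    refine sum_congr rfl fun i hi => ?_
    have := mem_range.1 hi
    rw [aeval_one _ (by omega), gm_mul (by omega) (by nlinarith)]
    congr 1 <;> ring
  have h2 : aeval (crv K (m + 3)) (Y K (m + 3) 1 ^ (m + 3))
      = aeval (crv K (m + 3)) (Y K (m + 3) 0 ^ (m + 2) * Y K (m + 3) (m + 3)) := by
    have := aeval_ae (K := K) (m := m) (m + 2) 1 ((m + 3) * (m + 3)) (by ring)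
    rw [pow_one] at this
    rw [this, aeval_pow3 1 (by omega) _ _ rfl]
    congr 1
    ring
  have h3 : aeval (crv K (m + 3)) (Y K (m + 3) (m + 2) ^ (m + 3))
      = aeval (crv K (m + 3)) (Y K (m + 3) 0 * Y K (m + 3) (m + 3) ^ (m + 2)) := by
    have := aeval_ae (K := K) (m := m) 1 (m + 2) ((m + 3) * (m + 3)) (by ring)
    rw [pow_one] at this
    rw [this, aeval_pow3 (m + 2) (by omega) _ _ rfl]
    congr 1
    ring
  rw [FII, BI, map_add, map_sub, map_sub, map_sub, map_sub, h1, h2, h3]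
  ring

lemma G_PH_zero (m : ℕ) : aeval (crv K (m + 3)) (Y K (m + 3) 1 * pderiv 0 (PH K m))
    = ∑ i ∈ range (m + 1), C ((m + 1 - i : ℕ) : K)
      * gm K ((m + 3) * (m + 2)) ((m + 3) * (i + 1) + 1) := by
  rw [pderiv_PH_zero, mul_sum, map_sum]
  refine sum_congr rfl fun i hi => ?_
  have := mem_range.1 hi
  have h := aeval_ae (K := K) (m := m) (m - i) (i + 1) ((m + 3) * (m + 1))
    (by rw [show m - i + (i + 1) = m + 1 by omega])
  rw [map_mul, map_mul, map_natCast, h, aeval_one _ (by omega), C_eq_coe_nat, mul_left_comm,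
    gm_mul (by omega) (by nlinarith)]
  congr 2 <;> ring

lemma G_PH_last (m : ℕ) :
    aeval (crv K (m + 3)) (Y K (m + 3) 1 * pderiv (Fin.last (m + 3)) (PH K m))
    = ∑ i ∈ range (m + 1), C ((i + 1 : ℕ) : K)
      * gm K ((m + 3) * (m + 2)) ((m + 3) * i + 1) := by
  rw [pderiv_PH_last, mul_sum, map_sum]
  refine sum_congr rfl fun i hi => ?_
  have := mem_range.1 hi
  have h := aeval_ae (K := K) (m := m) (m + 1 - i) i ((m + 3) * (m + 1))
    (by rw [show m + 1 - i + i = m + 1 by omega])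
  rw [map_mul, map_mul, map_natCast, h, aeval_one _ (by omega), C_eq_coe_nat, mul_left_comm,
    gm_mul (by omega) (by nlinarith)]
  congr 2 <;> ring

lemma G_FII_zero (m : ℕ) (hd : ((m + 3 : ℕ) : K) = 0) :
    aeval (crv K (m + 3)) (pderiv 0 (FII K m))
      = gm K ((m + 3) * (m + 2)) (m + 3)
        + ∑ i ∈ range (m + 1), C (-((m + 1 - i : ℕ) : K))
            * gm K ((m + 3) * (m + 2)) ((m + 3) * (i + 1) + 1)
        + gm K ((m + 3) * (m + 2)) ((m + 3) * (m + 2)) := by
  have h1 := aeval_ae (K := K) (m := m) (m + 1) 1 ((m + 3) * (m + 2)) (by ring)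
  rw [pow_one, mul_one] at h1
  have h2 := aeval_pow3 (K := K) (m := m) (m + 3) le_rfl (m + 2) _ rfl
  rw [pd_FII_zero m hd, map_add, map_add, map_neg, G_PH_zero, h1, h2, ← sum_neg_distrib,
    add_comm (∑ i ∈ range (m + 1), _)]
  congr 2
  exact sum_congr rfl fun i _ => by rw [C_neg, neg_mul]

lemma G_FII_one (m : ℕ) (hd : ((m + 3 : ℕ) : K) = 0) :
    aeval (crv K (m + 3)) (pderiv ⟨1, by omega⟩ (FII K m))
      = -(gm K ((m + 3) * (m + 2)) (m + 3)
        + ∑ i ∈ range (m + 1), gm K ((m + 3) * (m + 2)) ((m + 3) * (i + 1))) := by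
  have h1 : aeval (crv K (m + 3)) (Y K (m + 3) 1 ^ (m + 1) * Y K (m + 3) 2)
      = gm K ((m + 3) * (m + 2)) (m + 3) := by
    rw [map_mul, aeval_pow3 1 (by omega) _ _ rfl, aeval_one _ (by omega),
      gm_mul (by nlinarith) (by omega)]
    congr 1
    ring
  rw [pd_FII_one m hd, map_sub, map_neg, h1, aeval_PH]
  ring

lemma G_FII_mid (m : ℕ) (hd : ((m + 3 : ℕ) : K) = 0) (j : ℕ) (hj : j < m) :
    aeval (crv K (m + 3)) (pderiv ⟨j + 2, by omega⟩ (FII K m))
      = gm K ((m + 3) * (m + 2)) ((j + 1) * (m + 2))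
        - gm K ((m + 3) * (m + 2)) ((j + 2) * (m + 2) + 1) := by
  rw [pd_FII_mid m hd j hj, map_sub, map_mul, aeval_pow3 (j + 1) (by omega) _ _ rfl,
    aeval_pow3 (j + 2) (by omega) _ _ rfl, aeval_one _ (by omega),
    gm_mul (by nlinarith) (by omega)]
  congr 2

lemma G_FII_pen (m : ℕ) (hd : ((m + 3 : ℕ) : K) = 0) :
    aeval (crv K (m + 3)) (pderiv ⟨m + 2, by omega⟩ (FII K m))
      = gm K ((m + 3) * (m + 2)) ((m + 1) * (m + 2)) := by
  rw [pd_FII_pen m hd, aeval_pow3 (m + 1) (by omega) _ _ rfl]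

lemma G_FII_last (m : ℕ) (hd : ((m + 3 : ℕ) : K) = 0) :
    aeval (crv K (m + 3)) (pderiv (Fin.last (m + 3)) (FII K m))
      = -(gm K ((m + 3) * (m + 2)) 0 + gm K ((m + 3) * (m + 2)) 1
        + ∑ i ∈ range m, C ((i + 2 : ℕ) : K) * gm K ((m + 3) * (m + 2)) ((m + 3) * (i + 1) + 1)
        + gm K ((m + 3) * (m + 2)) ((m + 3) * (m + 1))) := by
  have h1 := aeval_ae (K := K) (m := m) 1 (m + 1) ((m + 3) * (m + 2)) (by ring)
  rw [pow_one] at h1
  have h2 := aeval_pow3 (K := K) (m := m) 0 (by omega) (m + 2) _ rfl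
  rw [zero_mul] at h2
  rw [pd_FII_last m hd, map_sub, map_sub, map_neg, G_PH_last, h1, h2, sum_range_succ',
    mul_zero, zero_add, Nat.cast_one, C_1, one_mul]
  ring

theorem hasCurve_II1 (m : ℕ) (hd : ((m + 3 : ℕ) : K) = 0) : HasCurve (m + 3) (FII K m) :=
  hasCurveII m hd _ (aeval_FII m) _ _ (G_FII_pen m hd) (G_FII_mid m hd) (G_FII_one m hd)
    (G_FII_zero m hd) (G_FII_last m hd)

lemma aeval_VI (m q : ℕ) (hm : 1 ≤ m) (hq : 2 * q = m + 3) (h2 : (2 : K) = 0) :
    aeval (crv K (m + 3)) (VI K m q) = 0 := by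
  have h1 : aeval (crv K (m + 3)) (Y K (m + 3) 0 ^ m * Y K (m + 3) (m + 3) ^ 2 * Y K (m + 3) 1)
      = gm K ((m + 3) * (m + 3)) ((m + 3) * 2 + 1) := by
    rw [map_mul, aeval_ae m 2 _ rfl, aeval_one _ (by omega), gm_mul (by nlinarith) (by omega)]
    congr 1
  have h3 : aeval (crv K (m + 3)) (Y K (m + 3) 0 ^ (m - 1) * Y K (m + 3) (m + 3)
      * Y K (m + 3) 1 * Y K (m + 3) q ^ 2)
      = gm K ((m + 3) * (m + 3)) ((m + 3) * 2 + 1) := by
    have h4 := aeval_ae (K := K) (m := m) (m - 1) 1 _ rfl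
    rw [pow_one] at h4
    rw [map_mul, map_mul, h4, aeval_one _ (by omega), gm_mul (by nlinarith) (by omega),
      aeval_pow3 q (by omega) _ _ rfl, gm_mul (by nlinarith) (by nlinarith)]
    congr 1
    · rw [show m - 1 + 1 = m by omega]; ring
    · rw [mul_comm q 2, hq]; ring
  rw [VI, map_add, h1, h3, ← two_mul, two_eq_zero_poly' h2, zero_mul]

/-- `m ≡ 1` in characteristic `2`, as `d = m + 3` is even. -/
lemma cast_m (m : ℕ) (hd : ((m + 3 : ℕ) : K) = 0) (h2 : (2 : K) = 0) {σ : Type*} :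
    (m : MvPolynomial σ K) = 1 := by
  have h : ((m : ℕ) : K) = 1 := by
    have h3 : (m : K) + 3 = 0 := by exact_mod_cast hd
    linear_combination h3 - 2 * h2
  rw [← C_eq_coe_nat, h, C_1]

lemma cast_m1 (m : ℕ) (hm : 1 ≤ m) (hd : ((m + 3 : ℕ) : K) = 0) (h2 : (2 : K) = 0) {σ : Type*} :
    ((m - 1 : ℕ) : MvPolynomial σ K) = 0 := by
  rw [Nat.cast_sub hm, cast_m m hd h2, Nat.cast_one, sub_self]

theorem hasCurve_II2 (m q : ℕ) (hm : 1 ≤ m) (hd : ((m + 3 : ℕ) : K) = 0) (hq : 2 * q = m + 3)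
    (h2 : (2 : K) = 0) : HasCurve (m + 3) (FII K m + VI K m q) := by
  refine hasCurveII m hd _ ?_ (fun i => -((m + 1 - i : ℕ) : K) + (if i = 1 then 1 else 0))
    (fun i => ((i + 2 : ℕ) : K) - (if i = 0 then 1 else 0)) ?_ ?_ ?_ ?_ ?_
  · rw [map_add, aeval_FII, aeval_VI m q hm hq h2, add_zero]
  · rw [map_add, map_add, G_FII_pen m hd, pd_VI_mid m q h2 m le_rfl, map_zero, add_zero]
  · intro j hj
    rw [map_add, map_add, G_FII_mid m hd j hj, pd_VI_mid m q h2 j hj.le, map_zero, add_zero]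
  · have h3 : aeval (crv K (m + 3)) (pderiv ⟨1, by omega⟩ (VI K m q)) = 0 := by
      have h4 := aeval_ae (K := K) (m := m) m 2 ((m + 3) * (m + 2)) (by ring)
      have h5 : aeval (crv K (m + 3)) (Y K (m + 3) 0 ^ (m - 1) * Y K (m + 3) (m + 3)
          * Y K (m + 3) q ^ 2) = gm K ((m + 3) * (m + 2)) ((m + 3) * 2) := by
        have h6 := aeval_ae (K := K) (m := m) (m - 1) 1 _ rfl
        rw [pow_one] at h6
        rw [map_mul, h6, aeval_pow3 q (by omega) _ _ rfl, gm_mul (by nlinarith) (by nlinarith)]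
        congr 1
        · rw [show m - 1 + 1 = m by omega]; ring
        · rw [mul_comm q 2, hq]; ring
      rw [pd_VI_one m q hq, map_add, h4, h5, ← two_mul, two_eq_zero_poly' h2, zero_mul]
    rw [map_add, map_add, G_FII_one m hd, h3, add_zero]
  · have h3 : aeval (crv K (m + 3)) (pderiv 0 (VI K m q))
        = ∑ i ∈ range (m + 1), C (if i = 1 then (1 : K) else 0)
            * gm K ((m + 3) * (m + 2)) ((m + 3) * (i + 1) + 1) := by
      have h4 := aeval_ae (K := K) (m := m) (m - 1) 2 ((m + 3) * (m + 1))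
        (by rw [show m - 1 + 2 = m + 1 by omega])
      rw [pd_VI_zero m q hq, cast_m m hd h2, cast_m1 m hm hd h2, zero_mul, add_zero, one_mul,
        map_mul, h4, aeval_one _ (by omega), gm_mul (by nlinarith) (by omega), sum_eq_single 1]
      · rw [if_pos rfl, C_1, one_mul]
        congr 1
      · intro i _ hi
        rw [if_neg hi, C_0, zero_mul]
      · intro h
        exact absurd (mem_range.2 (by omega)) h
    rw [map_add, map_add, G_FII_zero m hd, h3]
    simp only [C_add, add_mul, sum_add_distrib]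
    ring
  · have h3 : aeval (crv K (m + 3)) (pderiv (Fin.last (m + 3)) (VI K m q))
        = ∑ i ∈ range m, C (if i = 0 then (1 : K) else 0)
            * gm K ((m + 3) * (m + 2)) ((m + 3) * (i + 1) + 1) := by
      have h4 := aeval_pow3 (K := K) (m := m) 0 (by omega) (m - 1) _ rfl
      rw [pd_VI_last m q h2 hq, map_mul, map_mul, h4, aeval_one _ (by omega),
        aeval_pow3 q (by omega) _ _ rfl, gm_mul (by nlinarith) (by omega),
        gm_mul (by nlinarith) (by nlinarith), sum_eq_single 0]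
      · rw [if_pos rfl, C_1, one_mul]
        congr 1
        · obtain ⟨k, rfl⟩ : ∃ k, m = k + 1 := ⟨m - 1, by omega⟩
          rw [Nat.add_sub_cancel]
          ring
        · rw [mul_comm q 2, hq]; ring
      · intro i _ hi
        rw [if_neg hi, C_0, zero_mul]
      · intro h
        exact absurd (mem_range.2 (by omega)) h
    rw [map_add, map_add, G_FII_last m hd, h3]
    simp only [C_sub, sub_mul, sum_sub_distrib]
    ring

/-! ### Smoothness -/

lemma PH_identity (R : Type*) [CommRing R] (m : ℕ) :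
    (Y R (m + 3) 0 - Y R (m + 3) (m + 3)) * PH R m
      = Y R (m + 3) 0 ^ (m + 2) * Y R (m + 3) (m + 3)
        - Y R (m + 3) 0 * Y R (m + 3) (m + 3) ^ (m + 2) := by
  have h := geom_sum₂_mul (Y R (m + 3) (m + 3)) (Y R (m + 3) 0) (m + 1)
  have h2 : PH R m = Y R (m + 3) 0 * Y R (m + 3) (m + 3) *
      ∑ i ∈ range (m + 1), Y R (m + 3) (m + 3) ^ i * Y R (m + 3) 0 ^ (m + 1 - 1 - i) := by
    rw [PH, mul_sum]
    refine sum_congr rfl fun i hi => ?_
    have := mem_range.1 hi
    rw [show m + 1 - i = (m + 1 - 1 - i) + 1 by omega]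
    ring
  rw [h2]
  linear_combination (-(Y R (m + 3) 0 * Y R (m + 3) (m + 3))) * h

lemma eval_PH_diag (m : ℕ) (x : Fin (m + 3 + 1) → K) (h : x 0 = x (Fin.last _)) :
    eval x (PH K m) = ((m + 1 : ℕ) : K) * x 0 ^ (m + 2) := by
  have e0 : eval x (Y K (m + 3) 0) = x 0 := eval_Y x 0 (by omega)
  have e1 : eval x (Y K (m + 3) (m + 3)) = x 0 := by rw [h]; exact eval_Y x (m + 3) (by omega)
  rw [PH, map_sum]
  have : ∀ i ∈ range (m + 1), eval x (Y K (m + 3) 0 ^ (m + 1 - i) * Y K (m + 3) (m + 3) ^ (i + 1))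
      = x 0 ^ (m + 2) := by
    intro i hi
    have := mem_range.1 hi
    rw [map_mul, map_pow, map_pow, e0, e1, ← pow_add, show m + 1 - i + (i + 1) = m + 2 by omega]
  rw [sum_congr rfl this, sum_const, card_range, nsmul_eq_mul]

/-- The elimination. -/
lemma elim_mid (m : ℕ) (x : Fin (m + 3 + 1) → K)
    (hpen : x ⟨m + 1, by omega⟩ ^ (m + 2) = 0)
    (hmid : ∀ j (hj : j < m), x ⟨j + 1, by omega⟩ ^ (m + 2)
      - x ⟨j + 2, by omega⟩ ^ (m + 1) * x ⟨j + 3, by omega⟩ = 0) :
    ∀ i (hi : i ≤ m), x ⟨i + 1, by omega⟩ = 0 := by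
  have h0 : x ⟨m + 1, by omega⟩ = 0 := (pow_eq_zero_iff (by omega)).1 hpen
  have key : ∀ r i (hi : i + r = m), x ⟨i + 1, by omega⟩ = 0 := by
    intro r
    induction r with
    | zero =>
      intro i hi
      have : i = m := by omega
      subst this
      exact h0
    | succ r ih =>
      intro i hi
      have h1 := hmid i (by omega)
      have h2 := ih (i + 1) (by omega)
      have h3 : x ⟨i + 2, by omega⟩ = 0 := h2
      rw [h3, zero_pow (by omega), zero_mul, sub_zero] at h1
      exact (pow_eq_zero_iff (by omega)).1 h1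
  intro i hi
  exact key (m - i) i (by omega)

lemma axis_parts (m : ℕ) (x : Fin (m + 3 + 1) → K)
    (hx : ∀ i (hi : i ≤ m), x ⟨i + 1, by omega⟩ = 0) (h0 : x 0 = 0)
    (h1 : x (Fin.last _) = 0) : ∀ j, j ≠ ⟨m + 2, by omega⟩ → x j = 0 := by
  intro j hj2
  have hj3 : (j : ℕ) ≠ m + 2 := fun h => hj2 (Fin.ext h)
  rcases Nat.eq_zero_or_pos (j : ℕ) with hj | hj
  · rw [show j = 0 from Fin.ext hj]; exact h0
  · rcases Nat.lt_or_ge (j : ℕ) (m + 2) with h | h
    · obtain ⟨i, hi⟩ : ∃ i, (j : ℕ) = i + 1 := ⟨(j : ℕ) - 1, by omega⟩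
      rw [show j = ⟨i + 1, by omega⟩ from Fin.ext hi]
      exact hx i (by omega)
    · rw [show j = Fin.last _ from Fin.ext (by rw [Fin.val_last]; omega)]
      exact h1

lemma eval_axis (m : ℕ) (x : Fin (m + 3 + 1) → K)
    (hx : ∀ j, j ≠ ⟨m + 2, by omega⟩ → x j = 0) :
    eval x (FII K m) = - x ⟨m + 2, by omega⟩ ^ (m + 3) := by
  have hz : ∀ i (hi : i < m + 3 + 1), i ≠ m + 2 → eval x (Y K (m + 3) i) = 0 := by
    intro i hi hne
    rw [eval_Y x i hi]
    exact hx _ (fun h => hne (congrArg Fin.val h))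
  have h1 : eval x (CH K m) = 0 := by
    rw [CH, map_sum]
    refine sum_eq_zero fun i hi => ?_
    have := mem_range.1 hi
    rw [map_mul, map_pow, hz (i + 1) (by omega) (by omega), zero_pow (by omega), zero_mul]
  rw [FII, BI, map_add, map_sub, map_sub, map_sub, map_sub, h1, map_mul, hz 1 (by omega) (by omega),
    map_pow, hz 1 (by omega) (by omega), map_mul, map_pow, hz 0 (by omega) (by omega), map_pow,
    map_mul, hz 0 (by omega) (by omega), eval_Y x (m + 2) (by omega), zero_pow (by omega),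
    zero_pow (by omega)]
  ring

theorem axisCrit_II1 (m : ℕ) (hd : ((m + 3 : ℕ) : K) = 0) (h2 : (2 : K) ≠ 0) :
    AxisCrit (FII K m) ⟨m + 2, by omega⟩ := by
  constructor
  · intro x hx
    have hmid : ∀ i (hi : i ≤ m), x ⟨i + 1, by omega⟩ = 0 := by
      apply elim_mid
      · have h := hx ⟨m + 2, by omega⟩
        rw [pd_FII_pen m hd, map_pow, eval_Y x _ (by omega)] at h
        exact h
      · intro j hj
        have h := hx ⟨j + 2, by omega⟩
        rw [pd_FII_mid m hd j hj, map_sub, map_mul, map_pow, map_pow, eval_Y x _ (by omega),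
          eval_Y x _ (by omega), eval_Y x _ (by omega)] at h
        exact h
    have e0 : eval x (Y K (m + 3) 0) = x 0 := eval_Y x 0 (by omega)
    have ed : eval x (Y K (m + 3) (m + 3)) = x (Fin.last _) := eval_Y x (m + 3) (by omega)
    have e1 : eval x (Y K (m + 3) 1) = 0 := by
      rw [eval_Y x 1 (by omega)]; exact hmid 0 (by omega)
    have r1 := hx ⟨1, by omega⟩
    rw [pd_FII_one m hd, map_sub, map_neg, map_mul, map_pow, e1, zero_pow (by omega), zero_mul,
      neg_zero, zero_sub, neg_eq_zero] at r1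
    have r0 := hx 0
    rw [pd_FII_zero m hd, map_add, map_add, map_neg, map_mul, e1, zero_mul, neg_zero, zero_add,
      map_mul, map_pow, map_pow, e0, ed] at r0
    have rd := hx (Fin.last _)
    rw [pd_FII_last m hd, map_sub, map_sub, map_neg, map_mul, e1, zero_mul, neg_zero, zero_sub,
      map_pow, map_mul, map_pow, e0, ed] at rd
    have rP := congrArg (eval x) (PH_identity K m)
    rw [map_mul, r1, mul_zero, map_sub, map_mul, map_mul, map_pow, map_pow, e0, ed] at rP
    set a := x 0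
    set e := x (Fin.last _)
    have hae : a = 0 ∨ e = 0 := by
      by_contra hne
      push Not at hne
      obtain ⟨ha, he⟩ := hne
      have h3 : a ^ (m + 1) + e ^ (m + 1) = 0 := by
        have : e * (a ^ (m + 1) + e ^ (m + 1)) = 0 := by linear_combination r0
        exact (mul_eq_zero.1 this).resolve_left he
      have h4 : a ^ (m + 1) - e ^ (m + 1) = 0 := by
        have : a * e * (a ^ (m + 1) - e ^ (m + 1)) = 0 := by linear_combination -rP
        exact (mul_eq_zero.1 this).resolve_left (mul_ne_zero ha he)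
      have h5 : (2 : K) * a ^ (m + 1) = 0 := by linear_combination h3 + h4
      exact (mul_ne_zero h2 (pow_ne_zero _ ha)) h5
    have hboth : a = 0 ∧ e = 0 := by
      rcases hae with ha | he
      · refine ⟨ha, ?_⟩
        rw [ha, zero_pow (by omega), zero_mul, zero_add] at r0
        exact (pow_eq_zero_iff (by omega)).1 r0
      · refine ⟨?_, he⟩
        rw [he, zero_pow (by omega), mul_zero, sub_zero, neg_eq_zero] at rd
        exact (pow_eq_zero_iff (by omega)).1 rd
    exact axis_parts m x hmid hboth.1 hboth.2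
  · intro x hx h0
    rw [eval_axis m x hx, neg_eq_zero] at h0
    exact (pow_eq_zero_iff (by omega)).1 h0

theorem axisCrit_II2 (m q : ℕ) (hm : 1 ≤ m) (hd : ((m + 3 : ℕ) : K) = 0) (hq : 2 * q = m + 3)
    (h2 : (2 : K) = 0) : AxisCrit (FII K m + VI K m q) ⟨m + 2, by omega⟩ := by
  constructor
  · intro x hx
    have hmid : ∀ i (hi : i ≤ m), x ⟨i + 1, by omega⟩ = 0 := by
      apply elim_mid
      · have h := hx ⟨m + 2, by omega⟩
        rw [map_add, pd_VI_mid m q h2 m le_rfl, add_zero, pd_FII_pen m hd, map_pow,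
          eval_Y x _ (by omega)] at h
        exact h
      · intro j hj
        have h := hx ⟨j + 2, by omega⟩
        rw [map_add, pd_VI_mid m q h2 j hj.le, add_zero, pd_FII_mid m hd j hj, map_sub, map_mul,
          map_pow, map_pow, eval_Y x _ (by omega), eval_Y x _ (by omega),
          eval_Y x _ (by omega)] at h
        exact h
    have e0 : eval x (Y K (m + 3) 0) = x 0 := eval_Y x 0 (by omega)
    have ed : eval x (Y K (m + 3) (m + 3)) = x (Fin.last _) := eval_Y x (m + 3) (by omega)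
    have e1 : eval x (Y K (m + 3) 1) = 0 := by
      rw [eval_Y x 1 (by omega)]; exact hmid 0 (by omega)
    have eq : eval x (Y K (m + 3) q) = 0 := by
      obtain ⟨q, rfl⟩ : ∃ q', q = q' + 1 := ⟨q - 1, by omega⟩
      rw [eval_Y x (q + 1) (by omega)]; exact hmid q (by omega)
    have r1 := hx ⟨1, by omega⟩
    rw [map_add, pd_FII_one m hd, pd_VI_one m q hq, map_add, map_sub, map_neg, map_mul, map_pow,
      e1, zero_pow (by omega), zero_mul, neg_zero, zero_sub, map_add, map_mul, map_mul, map_mul,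
      map_pow, map_pow, map_pow, map_pow, e0, ed, eq, zero_pow (by omega), mul_zero,
      add_zero] at r1
    have r0 := hx 0
    rw [map_add, pd_FII_zero m hd, pd_VI_zero m q hq, map_add, map_add, map_add, map_neg, map_mul,
      e1, zero_mul, neg_zero, zero_add, map_mul, map_pow, map_pow, e0, ed, cast_m m hd h2,
      cast_m1 m hm hd h2, zero_mul, add_zero, one_mul, map_mul, e1, mul_zero, add_zero] at r0
    have rd := hx (Fin.last _)
    rw [map_add, pd_FII_last m hd, pd_VI_last m q h2 hq, map_add, map_sub, map_sub, map_neg,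
      map_mul, e1, zero_mul, neg_zero, zero_sub, map_pow, map_mul, map_pow, e0, ed, map_mul,
      map_pow, eq, zero_pow (by omega), mul_zero, add_zero] at rd
    have rP := congrArg (eval x) (PH_identity K m)
    rw [map_mul, map_sub, map_sub, map_mul, map_mul, map_pow, map_pow, e0, ed] at rP
    have hdiag := eval_PH_diag m x
    set a := x 0
    set e := x (Fin.last _)
    set Ph := eval x (PH K m)
    have hae : a = 0 ∨ e = 0 := by
      by_contra hne
      push Not at hne
      obtain ⟨ha, he⟩ := hne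
      have h3 : a ^ (m + 1) + e ^ (m + 1) = 0 := by
        have : e * (a ^ (m + 1) + e ^ (m + 1)) = 0 := by linear_combination r0
        exact (mul_eq_zero.1 this).resolve_left he
      have h4 : a ^ (m + 1) - e ^ (m + 1) = 0 := by
        linear_combination h3 - h2 * e ^ (m + 1)
      have h5 : (a - e) * (a ^ m * e ^ 2) = 0 := by
        linear_combination (a - e) * r1 + rP + a * e * h4
      have h6 : a - e = 0 :=
        (mul_eq_zero.1 h5).resolve_right (mul_ne_zero (pow_ne_zero _ ha) (pow_ne_zero _ he))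
      have h7 : a = e := sub_eq_zero.1 h6
      have h8 := hdiag h7
      have h9 : (m : K) = 1 := by
        have h3 : (m : K) + 3 = 0 := by exact_mod_cast hd
        linear_combination h3 - 2 * h2
      rw [h8, ← h7] at r1
      push_cast at r1
      rw [h9] at r1
      have h10 : a ^ (m + 2) = 0 := by
        linear_combination r1 + a ^ (m + 2) * h2
      exact (pow_ne_zero _ ha) h10
    have hboth : a = 0 ∧ e = 0 := by
      rcases hae with ha | he
      · refine ⟨ha, ?_⟩
        rw [ha, zero_pow (by omega), zero_mul, zero_add] at r0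
        exact (pow_eq_zero_iff (by omega)).1 r0
      · refine ⟨?_, he⟩
        rw [he, zero_pow (by omega), mul_zero, sub_zero, neg_eq_zero] at rd
        exact (pow_eq_zero_iff (by omega)).1 rd
    exact axis_parts m x hmid hboth.1 hboth.2
  · intro x hx h0
    have h1 : eval x (VI K m q) = 0 := by
      have e1 : eval x (Y K (m + 3) 1) = 0 := by
        rw [eval_Y x 1 (by omega)]
        exact hx _ (fun h => by have := congrArg Fin.val h; simp at this)
      rw [VI, map_add, map_mul, map_mul, map_mul, map_mul, e1]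
      ring
    rw [map_add, h1, add_zero, eval_axis m x hx, neg_eq_zero] at h0
    exact (pow_eq_zero_iff (by omega)).1 h0

end Pool.Agent.W_MP_fe9afc_ag
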