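import Pool.Agent.W_MP_fe9afc_ag.FamI3
import Pool.Agent.W_MP_fe9afc_ag.FamII2

/-!
# Separably rationally connected Fano hypersurfaces over `𝔽_p`: assembly
-/

namespace Pool.Agent.W_MP_fe9afc_ag

open MvPolynomial Finset

variable (p : ℕ) (K : Type*) [Field K] [Algebra (ZMod p) K]

/-- `F` over `𝔽_p` of degree `d` in `ℙⁿ` without critical points, with a good curve. -/
def Good1 (n d : ℕ) : Prop :=
  ∃ F : MvPolynomial (Fin (n + 1)) (ZMod p), F.IsHomogeneous d ∧
    NoCrit (map (algebraMap (ZMod p) K) F) ∧ HasCurve d (map (algebraMap (ZMod p) K) F)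

/-- The same with critical points on one axis only. -/
def Good2 (n d : ℕ) : Prop :=
  ∃ (F : MvPolynomial (Fin (n + 1)) (ZMod p)) (v : Fin (n + 1)), F.IsHomogeneous d ∧
    AxisCrit (map (algebraMap (ZMod p) K) F) v ∧ HasCurve d (map (algebraMap (ZMod p) K) F)

/-- The same with, moreover, `∂_v F = 0`. -/
def Good3 (n d : ℕ) : Prop :=
  ∃ (F : MvPolynomial (Fin (n + 1)) (ZMod p)) (v : Fin (n + 1)), F.IsHomogeneous d ∧
    AxisCrit (map (algebraMap (ZMod p) K) F) v ∧ HasCurve d (map (algebraMap (ZMod p) K) F) ∧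
    pderiv v (map (algebraMap (ZMod p) K) F) = 0

/-- What we want: a smooth separably rationally connected hypersurface of degree `d` in `ℙⁿ`
defined over `𝔽_p`. -/
def Good (n d : ℕ) : Prop :=
  ∃ F : MvPolynomial (Fin (n + 1)) (ZMod p), F.IsHomogeneous d ∧
    IsSmoothHypersurface (map (algebraMap (ZMod p) K) F) ∧
    IsSRC (map (algebraMap (ZMod p) K) F)

variable {p K}

lemma Good1.good {n d : ℕ} (hd : 2 ≤ d) (h : Good1 p K n d) : Good p K n d := by
  obtain ⟨F, hF, h1, h2⟩ := h
  exact ⟨F, hF, h1.smooth, h2.isSRC hd (hF.map _)⟩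

lemma Good2.good {n d : ℕ} (hd : 2 ≤ d) (h : Good2 p K n d) : Good p K n d := by
  obtain ⟨F, v, hF, h1, h2⟩ := h
  exact ⟨F, hF, h1.smooth, h2.isSRC hd (hF.map _)⟩

lemma Good3.good {n d : ℕ} (hd : 2 ≤ d) (h : Good3 p K n d) : Good p K n d := by
  obtain ⟨F, v, hF, h1, h2, _⟩ := h
  exact ⟨F, hF, h1.smooth, h2.isSRC hd (hF.map _)⟩

lemma Good1.succ {n d : ℕ} (hd : 2 ≤ d) (hdK : (d : K) ≠ 0) (h : Good1 p K n d) :
    Good1 p K (n + 1) d := by
  obtain ⟨F, hF, h1, h2⟩ := h
  refine ⟨extP d F 0, extP_homogeneous d (by omega) F 0 hF (isHomogeneous_zero _ _ _), ?_, ?_⟩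
  · rw [map_extP, map_zero]
    exact h1.ext hdK (by omega)
  · rw [map_extP, map_zero]
    exact h2.ext (by omega) 0

lemma Good2.succ {n d : ℕ} (hd : 3 ≤ d) (hdK : (d : K) = 0) (h : Good2 p K n d) :
    Good2 p K (n + 1) d := by
  obtain ⟨F, v, hF, h1, h2⟩ := h
  refine ⟨extP d F (X v ^ (d - 1)), Fin.last (n + 1), extP_homogeneous d (by omega) F _ hF
    (isHomogeneous_X_pow _ _), ?_, ?_⟩
  · rw [map_extP, map_pow, map_X]
    exact h1.ext hdK hd (hF.map _)
  · rw [map_extP, map_pow, map_X]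
    exact h2.ext (by omega) _

lemma Good3.succ {n : ℕ} (h2K : (2 : K) = 0) (h : Good3 p K n 2) : Good1 p K (n + 1) 2 := by
  obtain ⟨F, v, hF, h1, h2, h3⟩ := h
  refine ⟨extP 2 F (X v), extP_homogeneous 2 (by omega) F _ hF (isHomogeneous_X _ _), ?_, ?_⟩
  · rw [map_extP, map_X]
    exact h1.ext2 h2K h3
  · rw [map_extP, map_X]
    exact h2.ext (by omega) _

lemma Good1.succ2 {n : ℕ} (h2K : (2 : K) = 0) (h : Good1 p K n 2) : Good3 p K (n + 1) 2 := by
  obtain ⟨F, hF, h1, h2⟩ := h
  have h3 := h1.ext2 h2K (hF.map _)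
  refine ⟨extP 2 F 0, Fin.last (n + 1), extP_homogeneous 2 (by omega) F _ hF
    (isHomogeneous_zero _ _ _), ?_, ?_, ?_⟩
  · rw [map_extP, map_zero]
    exact h3.1
  · rw [map_extP, map_zero]
    exact h2.ext (by omega) _
  · rw [map_extP, map_zero]
    exact h3.2

lemma Good1.of_le {n d : ℕ} (hd : 2 ≤ d) (hdK : (d : K) ≠ 0) (h : Good1 p K d d) (hn : d ≤ n) :
    Good1 p K n d := by
  induction n, hn using Nat.le_induction with
  | base => exact h
  | succ n _ ih => exact ih.succ hd hdK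

lemma Good2.of_le {n d : ℕ} (hd : 3 ≤ d) (hdK : (d : K) = 0) (h : Good2 p K d d) (hn : d ≤ n) :
    Good2 p K n d := by
  induction n, hn using Nat.le_induction with
  | base => exact h
  | succ n _ ih => exact ih.succ hd hdK

/-! ### `p = d = 2` -/

lemma conic_hasCurve : HasCurve (n := 2) 2 ((X 1 ^ 2 - X 0 * X 2 : MvPolynomial (Fin (2 + 1)) K)) := by
  have hc0 : crv K 2 0 = X 0 ^ 2 := by simp [crv]
  have hc1 : crv K 2 1 = X 0 * X 1 := by simp [crv]
  have hc2 : crv K 2 2 = X 1 ^ 2 := by simp [crv]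
  refine hasCurve_of_span 2 le_rfl _ ?_ ?_
  · rw [map_sub, map_mul, map_pow, aeval_X, aeval_X, aeval_X, hc0, hc1, hc2]
    ring
  · intro k hk
    have p0 : pderiv (0 : Fin (2 + 1)) (X 1 ^ 2 - X 0 * X 2 : MvPolynomial (Fin (2 + 1)) K)
        = - X 2 := by
      rw [map_sub, pderiv_mul, pderiv_pow, pderiv_X_self, pderiv_X_of_ne (by decide),
        pderiv_X_of_ne (by decide)]
      ring
    have p2 : pderiv (2 : Fin (2 + 1)) (X 1 ^ 2 - X 0 * X 2 : MvPolynomial (Fin (2 + 1)) K)
        = - X 0 := by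
      rw [map_sub, pderiv_mul, pderiv_pow, pderiv_X_self, pderiv_X_of_ne (by decide),
        pderiv_X_of_ne (by decide)]
      ring
    set W := WSub 2 (fun i => aeval (crv K 2) (pderiv i (X 1 ^ 2 - X 0 * X 2 :
      MvPolynomial (Fin (2 + 1)) K))) 0 with hW
    have hk' : k = 0 ∨ k = 1 ∨ k = 2 := by omega
    rcases hk' with rfl | rfl | rfl
    · have h := WSub.mul_mem 2 (fun i => aeval (crv K 2) (pderiv i (X 1 ^ 2 - X 0 * X 2 :
        MvPolynomial (Fin (2 + 1)) K))) 0 2 (-1) (by
          rw [show (-1 : MvPolynomial (Fin 2) K) = C (-1) by simp]; exact isHomogeneous_C _ _)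
      simp only [p2, map_neg, aeval_X, hc0] at h
      have e : gm K (2 * 2 - 2) 0 = -1 * -X 0 ^ 2 := by simp [gm]
      rw [e]
      exact h
    · refine (W.neg_mem_iff).1 ?_
      refine WSub.xi_mem _ _ _ _ ?_
      simp only [p0, map_neg, aeval_X, hc2]
      simp [gm]
      ring
    · have h := WSub.mul_mem 2 (fun i => aeval (crv K 2) (pderiv i (X 1 ^ 2 - X 0 * X 2 :
        MvPolynomial (Fin (2 + 1)) K))) 0 0 (-1) (by
          rw [show (-1 : MvPolynomial (Fin 2) K) = C (-1) by simp]; exact isHomogeneous_C _ _)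
      simp only [p0, map_neg, aeval_X, hc2] at h
      have e : gm K (2 * 2 - 2) 2 = -1 * -X 1 ^ 2 := by simp [gm]
      rw [e]
      exact h

lemma good3_two (h2K : (2 : K) = 0) : Good3 p K 2 2 := by
  refine ⟨X 1 ^ 2 - X 0 * X 2, 1, ?_, ?_, ?_, ?_⟩
  · refine IsHomogeneous.sub (isHomogeneous_X_pow _ _) ?_
    exact (isHomogeneous_X _ _).mul (isHomogeneous_X _ _)
  · rw [map_sub, map_mul, map_pow, map_X, map_X, map_X]
    constructor
    · intro x hx i hi
      have h0 := hx 0
      have h2 := hx 2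
      rw [map_sub, pderiv_mul, pderiv_pow, pderiv_X_self, pderiv_X_of_ne (by decide),
        pderiv_X_of_ne (by decide)] at h0
      rw [map_sub, pderiv_mul, pderiv_pow, pderiv_X_self, pderiv_X_of_ne (by decide),
        pderiv_X_of_ne (by decide)] at h2
      simp at h0 h2
      fin_cases i
      · exact h2
      · exact absurd rfl hi
      · exact h0
    · intro x hx h0
      have h1 : x 0 = 0 := hx 0 (by decide)
      simp [h1] at h0
      exact h0
  · rw [map_sub, map_mul, map_pow, map_X, map_X, map_X]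
    exact conic_hasCurve
  · rw [map_sub, map_mul, map_pow, map_X, map_X, map_X, map_sub, pderiv_mul, pderiv_pow,
      pderiv_X_self, pderiv_X_of_ne (by decide), pderiv_X_of_ne (by decide), Nat.cast_ofNat,
      two_eq_zero_poly h2K]
    ring

lemma good_two_two (h2K : (2 : K) = 0) (n : ℕ) (hn : 2 ≤ n) : Good p K n 2 := by
  have : Good1 p K n 2 ∨ Good3 p K n 2 := by
    induction n, hn using Nat.le_induction with
    | base => exact Or.inr (good3_two h2K)
    | succ n _ ih =>
      rcases ih with h | h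
      · exact Or.inr (h.succ2 h2K)
      · exact Or.inl (h.succ h2K)
  rcases this with h | h
  · exact h.good le_rfl
  · exact h.good le_rfl

/-! ### `d = 1` -/

lemma good_one (n : ℕ) (hn : 2 ≤ n) : Good p K n 1 := by
  refine ⟨X 0, isHomogeneous_X _ _, ?_, ?_⟩
  · intro x _ _
    refine ⟨0, ?_⟩
    rw [map_X, pderiv_X_self, map_one]
    exact one_ne_zero
  · rw [map_X]
    let f : Fin (n + 1) → MvPolynomial (Fin 2) K := fun i =>
      if (i : ℕ) = 1 then X 0 else if (i : ℕ) = 2 then X 1 else 0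
    have hf0 : f 0 = 0 := by simp [f]
    refine ⟨1, f, ⟨⟨?_, ?_, ?_⟩, le_rfl, ?_⟩⟩
    · intro i
      simp only [f]
      split_ifs
      · exact isHomogeneous_X _ _
      · exact isHomogeneous_X _ _
      · exact isHomogeneous_zero _ _ _
    · intro P hP
      by_cases h0 : P 0 = 0
      · have h1 : P 1 ≠ 0 := by
          intro h1
          apply hP
          funext i
          fin_cases i <;> simp [h0, h1]
        exact ⟨⟨2, by omega⟩, by simp [f, h1]⟩
      · exact ⟨⟨1, by omega⟩, by simp [f, h0]⟩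
    · rw [aeval_X, hf0]
    · intro P _ w hw
      refine ⟨fun i => C (w i), ⟨fun i => isHomogeneous_C _ _, ?_⟩, 0, fun i => by simp⟩
      have h1 : ∀ i : Fin (n + 1), aeval f (pderiv i (X 0 : MvPolynomial (Fin (n + 1)) K))
          = if i = 0 then 1 else 0 := by
        intro i
        split_ifs with h
        · rw [h, pderiv_X_self, map_one]
        · rw [pderiv_X_of_ne (Ne.symm h), map_zero]
      have h2 : ∀ i : Fin (n + 1), eval (fun j => eval P (f j))
          (pderiv i (X 0 : MvPolynomial (Fin (n + 1)) K)) = if i = 0 then 1 else 0 := by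
        intro i
        split_ifs with h
        · rw [h, pderiv_X_self, map_one]
        · rw [pderiv_X_of_ne (Ne.symm h), map_zero]
      simp only [h2, mul_ite, mul_one, mul_zero, sum_ite_eq', mem_univ, if_true] at hw
      simp only [h1, mul_ite, mul_one, mul_zero, sum_ite_eq', mem_univ, if_true, hw, C_0]

/-! ### The base cases -/

lemma good1_base [CharP K p] (hp : p.Prime) (m : ℕ) (hpd : ¬ p ∣ m + 2) :
    Good1 p K (m + 2) (m + 2) := by
  have hd : ((m + 2 : ℕ) : K) ≠ 0 := by rwa [Ne, CharP.cast_eq_zero_iff K p]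
  by_cases hpd1 : p ∣ m + 1
  · have hd1 : ((m + 1 : ℕ) : K) = 0 := (CharP.cast_eq_zero_iff K p _).2 hpd1
    have hpm : p ≤ m + 1 := Nat.le_of_dvd (by omega) hpd1
    have hp2 : 2 ≤ p := hp.two_le
    have hpK : (p : K) = 0 := CharP.cast_eq_zero K p
    by_cases hpodd : p = 2
    · subst hpodd
      have h2K : (2 : K) = 0 := by exact_mod_cast hpK
      by_cases hm : m = 1
      · subst hm
        refine ⟨PI _ 1 - SI _ 1, (PI_homogeneous _ _).sub (SI_homogeneous _ _), ?_, ?_⟩
        · rw [map_sub, map_PI, map_SI]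
          exact noCrit_A23 h2K
        · rw [map_sub, map_PI, map_SI]
          exact hasCurve_A 1 hd
      · have hm3 : 3 ≤ m := by
          obtain ⟨c, hc⟩ := hpd1
          omega
        refine ⟨PI _ m - SI _ m + (UI _ m - TI _ m 2), ?_, ?_, ?_⟩
        · exact ((PI_homogeneous _ _).sub (SI_homogeneous _ _)).add
            ((UI_homogeneous _ _ (by omega)).sub (TI_homogeneous _ _ _ (by omega)))
        · rw [map_add, map_sub, map_sub, map_PI, map_SI, map_UI, map_TI]
          exact noCrit_B2 m hm3 hd1 h2K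
        · rw [map_add, map_sub, map_sub, map_PI, map_SI, map_UI, map_TI]
          exact hasCurve_B2 m hm3 hd1 h2K
    · have h2K : (2 : K) ≠ 0 := by
        intro h
        have h' : ((2 : ℕ) : K) = 0 := by exact_mod_cast h
        rw [CharP.cast_eq_zero_iff K p] at h'
        exact hpodd ((Nat.prime_dvd_prime_iff_eq hp Nat.prime_two).1 h')
      refine ⟨PI _ m - SI _ m + (Y _ (m + 2) p ^ (m + 2) - TI _ m p), ?_, ?_, ?_⟩
      · exact ((PI_homogeneous _ _).sub (SI_homogeneous _ _)).add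
          ((Y_pow_homogeneous _ _ _).sub (TI_homogeneous _ _ _ (by omega)))
      · rw [map_add, map_sub, map_sub, map_PI, map_SI, map_pow, map_Y, map_TI]
        exact noCrit_B1 m p hpK hd1 hp2 hpm h2K
      · rw [map_add, map_sub, map_sub, map_PI, map_SI, map_pow, map_Y, map_TI]
        exact hasCurve_B1 m p hpK hd1 hp2 hpm h2K
  · have hd1 : ((m + 1 : ℕ) : K) ≠ 0 := by rwa [Ne, CharP.cast_eq_zero_iff K p]
    refine ⟨PI _ m - SI _ m, (PI_homogeneous _ _).sub (SI_homogeneous _ _), ?_, ?_⟩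
    · rw [map_sub, map_PI, map_SI]
      exact noCrit_A m hd hd1
    · rw [map_sub, map_PI, map_SI]
      exact hasCurve_A m hd

lemma good2_base [CharP K p] (hp : p.Prime) (m : ℕ) (hpd : p ∣ m + 3) :
    Good2 p K (m + 3) (m + 3) := by
  have hd : ((m + 3 : ℕ) : K) = 0 := (CharP.cast_eq_zero_iff K p _).2 hpd
  have hpK : (p : K) = 0 := CharP.cast_eq_zero K p
  by_cases hpodd : p = 2
  · subst hpodd
    have h2K : (2 : K) = 0 := by exact_mod_cast hpK
    obtain ⟨q, hq⟩ := hpd
    have hm : 1 ≤ m := by omega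
    refine ⟨FII _ m + VI _ m q, ⟨m + 2, by omega⟩,
      (FII_homogeneous _ _).add (VI_homogeneous _ _ _ hm), ?_, ?_⟩
    · rw [map_add, map_FII, map_VI]
      exact axisCrit_II2 m q hm hd hq.symm h2K
    · rw [map_add, map_FII, map_VI]
      exact hasCurve_II2 m q hm hd hq.symm h2K
  · have h2K : (2 : K) ≠ 0 := by
      intro h
      have h' : ((2 : ℕ) : K) = 0 := by exact_mod_cast h
      rw [CharP.cast_eq_zero_iff K p] at h'
      exact hpodd ((Nat.prime_dvd_prime_iff_eq hp Nat.prime_two).1 h')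
    refine ⟨FII _ m, ⟨m + 2, by omega⟩, FII_homogeneous _ _, ?_, ?_⟩
    · rw [map_FII]
      exact axisCrit_II1 m hd h2K
    · rw [map_FII]
      exact hasCurve_II1 m hd

/-- **Main theorem**, over any field `K` of characteristic `p`. -/
theorem main [CharP K p] (hp : p.Prime) (n d : ℕ) (hn : 2 ≤ n) (hd : 1 ≤ d) (hdn : d ≤ n) :
    Good p K n d := by
  rcases Nat.lt_or_ge d 2 with h1 | h1
  · have : d = 1 := by omega
    subst this
    exact good_one n hn
  · by_cases hpd : p ∣ d
    · have hdK : (d : K) = 0 := (CharP.cast_eq_zero_iff K p _).2 hpd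
      rcases Nat.lt_or_ge d 3 with h2 | h2
      · have hd2 : d = 2 := by omega
        subst hd2
        have h2K : (2 : K) = 0 := by exact_mod_cast hdK
        exact good_two_two h2K n hn
      · obtain ⟨m, rfl⟩ : ∃ m, d = m + 3 := ⟨d - 3, by omega⟩
        exact ((good2_base hp m hpd).of_le h2 hdK hdn).good (by omega)
    · have hdK : (d : K) ≠ 0 := by rwa [Ne, CharP.cast_eq_zero_iff K p]
      obtain ⟨m, rfl⟩ : ∃ m, d = m + 2 := ⟨d - 2, by omega⟩
      exact ((good1_base hp m hpd).of_le h1 hdK hdn).good (by omega)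

end Pool.Agent.W_MP_fe9afc_ag
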